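import Mathlib

set_option autoImplicit false

/-!
A polynomial map of affine space which is injective on the points over every commutative algebra is an
automorphism of affine space.
-/

namespace Pool.Agent.H316.LL

open MvPolynomial

variable {K : Type} [Field K] {σ : Type} [Finite σ]

/-- Injectivity at the points over all commutative algebras. -/
def UInj (f : σ → MvPolynomial σ K) : Prop :=
  ∀ (R : Type) [CommRing R] [Algebra K R] (x y : σ → R),
    (∀ j, aeval x (f j) = aeval y (f j)) → x = y

lemma mem_of_tmul {Q E : Type} [Field Q] [Field E] [Algebra Q E] (a : E)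
    (h : a ⊗ₜ[Q] (1 : E) = (1 : E) ⊗ₜ[Q] a) : ∃ q : Q, algebraMap Q E q = a := by
  by_contra hne
  have hna : a ∉ Submodule.span Q {(1 : E)} := by
    intro hmem
    obtain ⟨c, hc⟩ := Submodule.mem_span_singleton.1 hmem
    exact hne ⟨c, by rw [Algebra.algebraMap_eq_smul_one]; exact hc⟩
  obtain ⟨ℓ, h1, h2⟩ := Submodule.exists_le_ker_of_notMem hna
  have h1' : ℓ 1 = 0 := h2 (Submodule.mem_span_singleton_self _)
  have h3 := congrArg (TensorProduct.lid Q E ∘ (ℓ.rTensor E)) h
  simp only [Function.comp_apply, LinearMap.rTensor_tmul, TensorProduct.lid_tmul, h1', zero_smul]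
    at h3
  rcases smul_eq_zero.1 h3 with h4 | h4
  · exact h1 h4
  · exact one_ne_zero h4

lemma surj_alg_closed {f : σ → MvPolynomial σ K} (hf : UInj f) (L : Type) [Field L] [Algebra K L]
    [IsAlgClosed L] (y : σ → L) : ∃ x : σ → L, ∀ j, aeval x (f j) = y j := by
  have h := ax_grothendieck_univ (fun j => MvPolynomial.map (algebraMap K L) (f j)) (by
    intro x x' hxx
    apply hf L x x'
    intro j
    have := congrFun hxx j
    simpa [eval_map, aeval_def] using this)
  obtain ⟨x, hx⟩ := h y
  refine ⟨x, fun j => ?_⟩
  have := congrFun hx j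
  simpa [eval_map, aeval_def] using this

lemma inj_alg {f : σ → MvPolynomial σ K} (hf : UInj f) :
    Function.Injective (aeval f : MvPolynomial σ K →ₐ[K] MvPolynomial σ K) := by
  rw [injective_iff_map_eq_zero]
  intro p hp
  have h : MvPolynomial.map (algebraMap K (AlgebraicClosure K)) p = 0 := by
    apply MvPolynomial.funext
    intro y
    obtain ⟨x, hx⟩ := surj_alg_closed hf (AlgebraicClosure K) y
    have h1 : aeval x (aeval f p) = aeval y p := by
      have : (aeval x).comp (aeval f) = (aeval y : MvPolynomial σ K →ₐ[K] AlgebraicClosure K) := by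
        ext j
        simp [hx j]
      rw [← this]
      rfl
    rw [hp, map_zero] at h1
    rw [eval_map, map_zero, ← aeval_def, ← h1]
  exact (MvPolynomial.map_injective _ (algebraMap K (AlgebraicClosure K)).injective)
    (by rw [h, map_zero])

lemma frac_mem {f : σ → MvPolynomial σ K} (hf : UInj f) (j : σ) :
    ∃ r s : MvPolynomial σ K, aeval f s ≠ 0 ∧ X j * aeval f s = aeval f r := by
  let E := FractionRing (MvPolynomial σ K)
  let F : σ → E := fun j => algebraMap _ E (f j)
  let Q := IntermediateField.adjoin K (Set.range F)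
  let x : σ → TensorProduct Q E E := fun j => algebraMap (MvPolynomial σ K) E (X j) ⊗ₜ[Q] (1 : E)
  let y : σ → TensorProduct Q E E := fun j => (1 : E) ⊗ₜ[Q] algebraMap (MvPolynomial σ K) E (X j)
  have hx : ∀ p : MvPolynomial σ K, aeval x p = (algebraMap _ E p) ⊗ₜ[Q] (1 : E) := by
    intro p
    have h : (aeval x : MvPolynomial σ K →ₐ[K] TensorProduct Q E E) =
        (((Algebra.TensorProduct.includeLeft : E →ₐ[Q] TensorProduct Q E E).restrictScalars K).comp
          (IsScalarTower.toAlgHom K (MvPolynomial σ K) E)) := by
      apply MvPolynomial.algHom_ext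
      intro j
      rw [aeval_X]
      rfl
    rw [h]
    rfl
  have hy : ∀ p : MvPolynomial σ K, aeval y p = (1 : E) ⊗ₜ[Q] (algebraMap _ E p) := by
    intro p
    have h : (aeval y : MvPolynomial σ K →ₐ[K] TensorProduct Q E E) =
        (((Algebra.TensorProduct.includeRight : E →ₐ[Q] TensorProduct Q E E).restrictScalars K).comp
          (IsScalarTower.toAlgHom K (MvPolynomial σ K) E)) := by
      apply MvPolynomial.algHom_ext
      intro j
      rw [aeval_X]
      rfl
    rw [h]
    rfl
  have hxy : x = y := by
    apply hf (TensorProduct Q E E) x y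
    intro i
    rw [hx, hy]
    have hq : F i ∈ Q := IntermediateField.subset_adjoin K _ ⟨i, rfl⟩
    have h1 : algebraMap (MvPolynomial σ K) E (f i) = (⟨F i, hq⟩ : Q) • (1 : E) := by
      rw [Algebra.smul_def, mul_one]
      rfl
    rw [h1, TensorProduct.smul_tmul]
  obtain ⟨q, hq⟩ := mem_of_tmul (Q := Q) (algebraMap (MvPolynomial σ K) E (X j)) (congrFun hxy j)
  have hmem : algebraMap (MvPolynomial σ K) E (X j) ∈ Q := by
    rw [← hq]
    exact q.2
  obtain ⟨r, s, hrs⟩ := (IntermediateField.mem_adjoin_range_iff K F _).1 hmem
  have hF : ∀ p : MvPolynomial σ K, aeval F p = algebraMap _ E (aeval f p) := by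
    intro p
    have h : (aeval F : MvPolynomial σ K →ₐ[K] E) =
        (IsScalarTower.toAlgHom K (MvPolynomial σ K) E).comp (aeval f) := by
      ext j
      simp [F]
    rw [h]
    rfl
  rw [hF, hF] at hrs
  have hinj : Function.Injective (algebraMap (MvPolynomial σ K) E) := IsFractionRing.injective _ _
  have hs : aeval f s ≠ 0 := by
    intro h0
    rw [h0, map_zero, div_zero] at hrs
    have := hinj (hrs.trans (map_zero _).symm)
    exact X_ne_zero j this
  refine ⟨r, s, hs, hinj ?_⟩
  have hs' : algebraMap (MvPolynomial σ K) E (aeval f s) ≠ 0 := by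
    intro h
    exact hs (hinj (h.trans (map_zero _).symm))
  rw [map_mul, hrs, div_mul_cancel₀ _ hs']

theorem surj_alg {f : σ → MvPolynomial σ K} (hf : UInj f) :
    Function.Surjective (aeval f : MvPolynomial σ K →ₐ[K] MvPolynomial σ K) := by
  have key : ∀ j, ∃ g : MvPolynomial σ K, aeval f g = X j := by
    intro j
    obtain ⟨r, s, hs, hrs⟩ := frac_mem hf j
    have hs0 : s ≠ 0 := by
      rintro rfl
      simp at hs
    obtain ⟨s', r', c, hrel, hcs, hcr⟩ := UniqueFactorizationMonoid.exists_reduced_factors s hs0 r
    have hc : aeval f c ≠ 0 := by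
      intro h
      rw [← hcs, map_mul, h, zero_mul] at hs
      exact hs rfl
    have h1 : X j * aeval f s' = aeval f r' := by
      rw [← hcs, ← hcr, map_mul, map_mul] at hrs
      apply mul_left_cancel₀ hc
      rw [← hrs]
      ring
    have hs'0 : s' ≠ 0 := by
      rintro rfl
      rw [mul_zero] at hcs
      exact hs0 hcs.symm
    have hunit : IsUnit s' := by
      by_contra hnu
      obtain ⟨π, hπ, hdvd⟩ := WfDvdMonoid.exists_irreducible_factor hnu hs'0
      have hprime : Prime π := hπ.prime
      have hP : (Ideal.span {π} : Ideal (MvPolynomial σ K)).IsPrime :=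
        (Ideal.span_singleton_prime hprime.ne_zero).2 hprime
      have hr : r' ∈ vanishingIdeal K (zeroLocus (AlgebraicClosure K)
          (Ideal.span {π} : Ideal (MvPolynomial σ K))) := by
        rw [mem_vanishingIdeal_iff]
        intro y hy
        rw [mem_zeroLocus_iff] at hy
        have hπy := hy π (Ideal.mem_span_singleton_self π)
        obtain ⟨x, hx⟩ := surj_alg_closed hf (AlgebraicClosure K) y
        have hcomp : ∀ p : MvPolynomial σ K, aeval x (aeval f p) = aeval y p := by
          intro p
          have : (aeval x).comp (aeval f) =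
              (aeval y : MvPolynomial σ K →ₐ[K] AlgebraicClosure K) := by
            ext j
            simp [hx j]
          rw [← this]
          rfl
        rw [← hcomp, ← h1, map_mul, hcomp]
        obtain ⟨e, he⟩ := hdvd
        rw [he, map_mul, hπy, zero_mul, mul_zero]
      rw [IsPrime.vanishingIdeal_zeroLocus, Ideal.mem_span_singleton] at hr
      exact hπ.not_isUnit (hrel hdvd hr)
    obtain ⟨u, hu⟩ := hunit.exists_right_inv
    refine ⟨r' * u, ?_⟩
    rw [map_mul, ← h1, mul_assoc, ← map_mul, hu, map_one, mul_one]
  intro p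
  choose g hg using key
  refine ⟨aeval g p, ?_⟩
  have : (aeval f).comp (aeval g) = AlgHom.id K (MvPolynomial σ K) := by
    apply MvPolynomial.algHom_ext
    intro j
    rw [AlgHom.comp_apply, aeval_X, hg]
    rfl
  exact DFunLike.congr_fun this p

/-- A polynomial map of affine space which is injective on the points over all commutative algebras is
surjective on the points over all commutative algebras. -/
theorem surj_points {f : σ → MvPolynomial σ K} (hf : UInj f) (R : Type) [CommRing R] [Algebra K R]
    (y : σ → R) : ∃ x : σ → R, ∀ j, aeval x (f j) = y j := by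
  choose g hg using fun j => surj_alg hf (X j)
  have hgf : ∀ j, aeval g (f j) = X j := by
    intro j
    apply inj_alg hf
    have : (aeval f).comp (aeval g) = AlgHom.id K (MvPolynomial σ K) := by
      apply MvPolynomial.algHom_ext
      intro j
      rw [AlgHom.comp_apply, aeval_X, hg]
      rfl
    have h1 := DFunLike.congr_fun this (f j)
    rw [aeval_X]
    exact h1
  refine ⟨fun j => aeval y (g j), fun j => ?_⟩
  have h2 : aeval (fun j => aeval y (g j)) (f j) = aeval y (aeval g (f j)) := by
    have : (aeval (fun j => aeval y (g j)) : MvPolynomial σ K →ₐ[K] R) =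
        (aeval y).comp (aeval g) := by
      ext j
      simp
    rw [this]
    rfl
  rw [h2, hgf, aeval_X]

end Pool.Agent.H316.LL
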