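import Pool.Graph.R_pool_sql_team_919ec72e.H2.FreeGood
import Pool.Agent.H316.LL.Univ

set_option autoImplicit false
set_option linter.unusedSectionVars false

/-!
The Jacobian determinants of an endomorphism of the free algebra which is approximated by an automorphism
to a sufficiently high order are constant.
-/

namespace Pool.Agent.H316.LL

open FreeAlgebra Pool.Agent.H2.FreeGood TensorProduct

/-- The elements of degree at most `d`. -/
def degLE (K : Type) [Field K] (n d : ℕ) : Submodule K (FreeAlgebra K (Fin n)) :=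
  Submodule.span K {w | ∃ l : List (Fin n), l.length ≤ d ∧ w = (l.map (ι K)).prod}

/-- The power `I^m` of the ideal `I = (x_1, …, x_n)`. -/
def augPow (K : Type) [Field K] (n m : ℕ) : Submodule K (FreeAlgebra K (Fin n)) :=
  Submodule.span K {w | ∃ l : List (Fin n), m ≤ l.length ∧ w = (l.map (ι K)).prod}

variable {K : Type} [Field K] {n : ℕ} {S : Type} [Ring S] [Algebra K S] {κ : Type} [Fintype κ]
  (b : Module.Basis κ K S)

/-- coordinates -/
noncomputable def co (R : Type) [CommRing R] [Algebra K R] (k : κ) (z : R ⊗[K] S) : R :=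
  (Algebra.TensorProduct.basis R b).repr z k

lemma co_add {R : Type} [CommRing R] [Algebra K R] (k : κ) (z z' : R ⊗[K] S) :
    co b R k (z + z') = co b R k z + co b R k z' := by
  simp [co]

lemma co_zero {R : Type} [CommRing R] [Algebra K R] (k : κ) :
    co b R k (0 : R ⊗[K] S) = 0 := by
  simp [co]

lemma co_smul {R : Type} [CommRing R] [Algebra K R] (k : κ) (r : R) (z : R ⊗[K] S) :
    co b R k (r • z) = r * co b R k z := by
  simp [co]

lemma co_tmul {R : Type} [CommRing R] [Algebra K R] (k : κ) (r : R) (s : S) :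
    co b R k (r ⊗ₜ s) = r * algebraMap K R (b.repr s k) := by
  simp [co]

lemma co_map {R R' : Type} [CommRing R] [Algebra K R] [CommRing R'] [Algebra K R']
    (g : R →ₐ[K] R') (k : κ) (z : R ⊗[K] S) :
    co b R' k (Algebra.TensorProduct.map g (AlgHom.id K S) z) = g (co b R k z) := by
  induction z using TensorProduct.induction_on with
  | zero => simp [co_zero]
  | tmul r s => simp [co_tmul]
  | add z z' h h' => rw [map_add, co_add, co_add, h, h', map_add]

lemma map_smul' {R R' : Type} [CommRing R] [Algebra K R] [CommRing R'] [Algebra K R']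
    (g : R →ₐ[K] R') (r : R) (z : R ⊗[K] S) :
    Algebra.TensorProduct.map g (AlgHom.id K S) (r • z) =
      g r • Algebra.TensorProduct.map g (AlgHom.id K S) z := by
  induction z using TensorProduct.induction_on with
  | zero => simp
  | tmul r s => simp [TensorProduct.smul_tmul']
  | add z z' h h' => rw [smul_add, map_add, map_add, smul_add, h, h']

/-- the basis of `B^n` -/
noncomputable def bb (n : ℕ) (R : Type) [CommRing R] [Algebra K R] :
    Module.Basis (Σ _ : Fin n, κ) R (Fin n → R ⊗[K] S) :=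
  Pi.basis fun _ => Algebra.TensorProduct.basis R b

/-- the matrix of the Jacobian -/
noncomputable def JM (R : Type) [CommRing R] [Algebra K R]
    (φ : FreeAlgebra K (Fin n) →ₐ[K] FreeAlgebra K (Fin n)) (X Y : Fin n → R ⊗[K] S) :
    Matrix (Σ _ : Fin n, κ) (Σ _ : Fin n, κ) R :=
  Matrix.of fun i j => co b R i.2
    (lift K (T X (Pi.single j.1 ((1 : R) ⊗ₜ[K] b j.2)) Y) (φ (ι K i.1)) 0 1)

lemma det_JM [DecidableEq κ] (R : Type) [CommRing R] [Algebra K R]
    (φ : FreeAlgebra K (Fin n) →ₐ[K] FreeAlgebra K (Fin n)) (X Y : Fin n → R ⊗[K] S) :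
    LinearMap.det (J R φ X Y) = (JM b R φ X Y).det := by
  rw [← LinearMap.det_toMatrix (bb b n R)]
  congr 1
  ext i j
  rw [LinearMap.toMatrix_apply]
  have h1 : bb b n R j = Pi.single j.1 ((1 : R) ⊗ₜ[K] b j.2) := by
    rw [bb, Pi.basis_apply, Algebra.TensorProduct.basis_apply]
  rw [h1]
  show (Algebra.TensorProduct.basis R b).repr (J R φ X Y _ i.1) i.2 = _
  rw [J_apply]
  rfl

lemma JM_map (R R' : Type) [CommRing R] [Algebra K R] [CommRing R'] [Algebra K R']
    (g : R →ₐ[K] R') (φ : FreeAlgebra K (Fin n) →ₐ[K] FreeAlgebra K (Fin n))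
    (X Y : Fin n → R ⊗[K] S) :
    JM b R' φ (fun i => Algebra.TensorProduct.map g (AlgHom.id K S) (X i))
      (fun i => Algebra.TensorProduct.map g (AlgHom.id K S) (Y i)) = (JM b R φ X Y).map g := by
  ext i j
  show co b R' i.2 _ = g (co b R i.2 _)
  have h : (Algebra.TensorProduct.map g (AlgHom.id K S)) ∘
      (Pi.single j.1 ((1 : R) ⊗ₜ[K] b j.2) : Fin n → R ⊗[K] S) =
      Pi.single j.1 ((1 : R') ⊗ₜ[K] b j.2) := by
    funext k
    rcases eq_or_ne k j.1 with rfl | hk
    · simp
    · simp [Pi.single_eq_of_ne hk]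
  rw [← co_map, nat, h]
  rfl

/-- the embedding of the coefficients into polynomials -/
noncomputable def cc (R : Type) [CommRing R] [Algebra K R] :
    R ⊗[K] S →ₐ[K] (Polynomial R) ⊗[K] S :=
  Algebra.TensorProduct.map (Polynomial.CAlgHom : R →ₐ[K] Polynomial R)
    (AlgHom.id K S)

lemma co_cc (R : Type) [CommRing R] [Algebra K R] (k : κ) (z : R ⊗[K] S) :
    co b (Polynomial R) k (cc R z) = Polynomial.C (co b R k z) := by
  rw [cc, co_map]
  rfl

lemma deg_lift (R : Type) [CommRing R] [Algebra K R] (d : ℕ)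
    (M : Fin n → Matrix (Fin 2) (Fin 2) (R ⊗[K] S)) (a : FreeAlgebra K (Fin n))
    (ha : a ∈ degLE K n d) (u v : Fin 2) (k : κ) :
    (co b (Polynomial R) k
      (lift K (fun i => (Polynomial.X : Polynomial R) • (M i).map (cc R)) a u v)).natDegree ≤ d := by
  unfold degLE at ha
  induction ha using Submodule.span_induction with
  | mem w hw =>
    obtain ⟨l, hl, rfl⟩ := hw
    have h : lift K (fun i => (Polynomial.X : Polynomial R) • (M i).map (cc R))
        (l.map (ι K)).prod = (Polynomial.X : Polynomial R) ^ l.length •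
          ((l.map M).prod).map (cc R) := by
      clear hl
      induction l with
      | nil => simp
      | cons i l ih =>
        rw [List.map_cons, List.prod_cons, map_mul, ih, lift_ι_apply, List.map_cons,
          List.prod_cons, List.length_cons, Matrix.map_mul]
        simp [pow_succ, smul_smul]
    rw [h, Matrix.smul_apply, co_smul, Matrix.map_apply, co_cc]
    refine (Polynomial.natDegree_mul_C_le _ _).trans ?_
    exact (Polynomial.natDegree_X_pow_le _).trans hl
  | zero => simp [co_zero]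
  | add x y _ _ hx hy =>
    rw [map_add, Matrix.add_apply, co_add]
    exact Polynomial.natDegree_add_le_of_degree_le hx hy
  | smul c x _ hx =>
    rw [map_smul, Matrix.smul_apply]
    have : c • (lift K (fun i => (Polynomial.X : Polynomial R) • (M i).map (cc R)) x u v) =
        (algebraMap K (Polynomial R) c) •
          (lift K (fun i => (Polynomial.X : Polynomial R) • (M i).map (cc R)) x u v) := by
      rw [algebraMap_smul]
    rw [this, co_smul]
    refine (Polynomial.natDegree_mul_le).trans ?_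
    have h0 : (algebraMap K (Polynomial R) c).natDegree = 0 := by
      rw [Polynomial.algebraMap_apply, Polynomial.natDegree_C]
    rw [h0, zero_add]
    exact hx

lemma cc_single [DecidableEq κ] (R : Type) [CommRing R] [Algebra K R] (j : Σ _ : Fin n, κ) :
    (cc R) ∘ (Pi.single j.1 ((1 : R) ⊗ₜ[K] b j.2) : Fin n → R ⊗[K] S) =
      Pi.single j.1 ((1 : Polynomial R) ⊗ₜ[K] b j.2) := by
  funext k
  rcases eq_or_ne k j.1 with rfl | hk
  · simp [cc]
  · simp [Pi.single_eq_of_ne hk]

lemma entry_deg [DecidableEq κ] (R : Type) [CommRing R] [IsDomain R] [Algebra K R] (d : ℕ)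
    (φ : FreeAlgebra K (Fin n) →ₐ[K] FreeAlgebra K (Fin n)) (hd : ∀ i, φ (ι K i) ∈ degLE K n d)
    (X Y : Fin n → R ⊗[K] S) (i j : Σ _ : Fin n, κ) :
    (JM b (Polynomial R) φ ((Polynomial.X : Polynomial R) • (cc R ∘ X))
      ((Polynomial.X : Polynomial R) • (cc R ∘ Y)) i j).natDegree ≤ d - 1 := by
  set p := JM b (Polynomial R) φ ((Polynomial.X : Polynomial R) • (cc R ∘ X))
      ((Polynomial.X : Polynomial R) • (cc R ∘ Y)) i j with hp
  have h1 : Polynomial.X * p = co b (Polynomial R) i.2 (lift K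
      (fun k => (Polynomial.X : Polynomial R) •
        (T X (Pi.single j.1 ((1 : R) ⊗ₜ[K] b j.2)) Y k).map (cc R)) (φ (ι K i.1)) 0 1) := by
    have e : (fun k => (Polynomial.X : Polynomial R) •
        (T X (Pi.single j.1 ((1 : R) ⊗ₜ[K] b j.2)) Y k).map (cc R)) =
        T ((Polynomial.X : Polynomial R) • (cc R ∘ X))
          ((Polynomial.X : Polynomial R) • (Pi.single j.1 ((1 : Polynomial R) ⊗ₜ[K] b j.2)))
          ((Polynomial.X : Polynomial R) • (cc R ∘ Y)) := by
      funext k
      have hk := congrFun (cc_single b R j) k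
      simp only [Function.comp_apply] at hk
      ext u v
      fin_cases u <;> fin_cases v <;> simp [T, hk]
    rw [e, ← J_apply (Polynomial R), map_smul, Pi.smul_apply, co_smul, J_apply]
    rfl
  have h2 := deg_lift b R d (T X (Pi.single j.1 ((1 : R) ⊗ₜ[K] b j.2)) Y) (φ (ι K i.1)) (hd i.1)
    0 1 i.2
  rw [← h1] at h2
  rcases eq_or_ne p 0 with h0 | h0
  · rw [h0, Polynomial.natDegree_zero]
    exact Nat.zero_le _
  · rw [Polynomial.natDegree_X_mul h0] at h2
    omega

lemma det_deg {R : Type} [CommRing R] {m : Type} [Fintype m] [DecidableEq m] (e : ℕ)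
    (M : Matrix m m (Polynomial R)) (h : ∀ i j, (M i j).natDegree ≤ e) :
    M.det.natDegree ≤ Fintype.card m * e := by
  rw [Matrix.det_apply']
  apply Polynomial.natDegree_sum_le_of_forall_le
  intro σ _
  refine Polynomial.natDegree_mul_le.trans ?_
  rw [Polynomial.natDegree_intCast, zero_add]
  refine (Polynomial.natDegree_prod_le _ _).trans ?_
  refine (Finset.sum_le_card_nsmul _ _ e fun i _ => h _ _).trans ?_
  simp

/-- `φ` is good at the level `m`. -/
def GoodAt (m : ℕ) (φ : FreeAlgebra K (Fin n) →ₐ[K] FreeAlgebra K (Fin n)) : Prop :=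
  ∃ (ψ : FreeAlgebra K (Fin n) →ₐ[K] FreeAlgebra K (Fin n))
    (α : FreeAlgebra K (Fin n) ≃ₐ[K] FreeAlgebra K (Fin n)),
      φ = ψ.comp α.toAlgHom ∧ ∀ i, ψ (ι K i) - ι K i ∈ augPow K n m

theorem det_gen [DecidableEq κ] (R : Type) [CommRing R] [IsDomain R] [Algebra K R] (d : ℕ)
    (φ : FreeAlgebra K (Fin n) →ₐ[K] FreeAlgebra K (Fin n)) (hd : ∀ i, φ (ι K i) ∈ degLE K n d)
    (hg : GoodAt (Fintype.card κ * n * (d - 1) + 2) φ) (X Y : Fin n → R ⊗[K] S) :
    ∃ r : R, IsUnit r ∧ (JM b (Polynomial R) φ ((Polynomial.X : Polynomial R) • (cc R ∘ X))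
      ((Polynomial.X : Polynomial R) • (cc R ∘ Y))).det = Polynomial.C r := by
  haveI : Module.Finite K S := Module.Finite.of_basis b
  obtain ⟨ψ, α, h1, h2⟩ := hg
  set p := (JM b (Polynomial R) φ ((Polynomial.X : Polynomial R) • (cc R ∘ X))
      ((Polynomial.X : Polynomial R) • (cc R ∘ Y))).det with hp
  have h3 := det_near (Polynomial R) (Polynomial.X : Polynomial R) Polynomial.X_ne_zero
    (Fintype.card κ * n * (d - 1) + 1) ψ h2 (cc R ∘ X) (cc R ∘ Y)
  have h4 := unit_det (Polynomial R) α
    (fun i => lift K ((Polynomial.X : Polynomial R) • (cc R ∘ X)) (ψ (ι K i)))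
    (fun i => lift K ((Polynomial.X : Polynomial R) • (cc R ∘ Y)) (ψ (ι K i)))
  have h5 := congrArg LinearMap.det (chain (Polynomial R) ψ α.toAlgHom
    ((Polynomial.X : Polynomial R) • (cc R ∘ X)) ((Polynomial.X : Polynomial R) • (cc R ∘ Y)))
  rw [LinearMap.det_comp, ← h1, det_JM b, ← hp] at h5
  obtain ⟨c, hc, hc'⟩ := Polynomial.isUnit_iff.mp h4
  refine ⟨c, hc, ?_⟩
  rw [← hc'] at h5
  have h6 : (Polynomial.X : Polynomial R) ^ (Fintype.card κ * n * (d - 1) + 1) ∣
      p - Polynomial.C c := by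
    have := h3.mul_left (Polynomial.C c)
    rwa [mul_sub, ← h5, mul_one] at this
  have hdeg : p.natDegree ≤ Fintype.card κ * n * (d - 1) := by
    have := det_deg (d - 1) _ (entry_deg b R d φ hd X Y)
    rw [← hp] at this
    have hcard : Fintype.card (Σ _ : Fin n, κ) = Fintype.card κ * n := by
      rw [Fintype.card_sigma]
      simp [mul_comm]
    rwa [hcard] at this
  have h7 : p - Polynomial.C c = 0 := by
    refine Polynomial.eq_zero_of_dvd_of_natDegree_lt h6 ?_
    rw [Polynomial.natDegree_sub_C, Polynomial.natDegree_X_pow]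
    omega
  exact sub_eq_zero.mp h7

lemma sum_co {R : Type} [CommRing R] [Algebra K R] (z : R ⊗[K] S) :
    ∑ k, (co b R k z) ⊗ₜ[K] b k = z := by
  have := (Algebra.TensorProduct.basis R b).sum_repr z
  conv_rhs => rw [← this]
  refine Finset.sum_congr rfl fun k _ => ?_
  rw [Algebra.TensorProduct.basis_repr_symm_apply']
  rfl

theorem det_const [DecidableEq κ] (d : ℕ)
    (φ : FreeAlgebra K (Fin n) →ₐ[K] FreeAlgebra K (Fin n)) (hd : ∀ i, φ (ι K i) ∈ degLE K n d)
    (hg : GoodAt (Fintype.card κ * n * (d - 1) + 2) φ) (R : Type) [CommRing R] [Algebra K R]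
    (X Y : Fin n → R ⊗[K] S) : IsUnit (JM b R φ X Y).det := by
  classical
  let R0 := MvPolynomial (Bool × Fin n × κ) K
  let X0 : Fin n → R0 ⊗[K] S := fun i => ∑ k, (MvPolynomial.X (true, i, k) : R0) ⊗ₜ[K] b k
  let Y0 : Fin n → R0 ⊗[K] S := fun i => ∑ k, (MvPolynomial.X (false, i, k) : R0) ⊗ₜ[K] b k
  obtain ⟨r, hr, hdet⟩ := det_gen b R0 d φ hd hg X0 Y0
  let e : R0 →ₐ[K] R := MvPolynomial.aeval fun v : Bool × Fin n × κ =>
    if v.1 then co b R v.2.2 (X v.2.1) else co b R v.2.2 (Y v.2.1)
  let g : Polynomial R0 →ₐ[K] R := e.comp ((Polynomial.aeval (1 : R0)).restrictScalars K)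
  have hgX : g Polynomial.X = 1 := by simp [g]
  have hgC : ∀ a : R0, g (Polynomial.C a) = e a := by
    intro a
    simp [g]
  have hmap : ∀ z : R0 ⊗[K] S, Algebra.TensorProduct.map g (AlgHom.id K S)
      ((Polynomial.X : Polynomial R0) • cc R0 z) =
      Algebra.TensorProduct.map e (AlgHom.id K S) z := by
    intro z
    rw [map_smul', hgX, one_smul]
    induction z using TensorProduct.induction_on with
    | zero => simp
    | tmul a s => simp [cc, hgC]
    | add z z' h h' => rw [map_add, map_add, map_add, h, h']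
  have hX : (fun i => Algebra.TensorProduct.map g (AlgHom.id K S)
      (((Polynomial.X : Polynomial R0) • (cc R0 ∘ X0)) i)) = X := by
    funext i
    rw [Pi.smul_apply, Function.comp_apply, hmap]
    simp only [X0, map_sum, Algebra.TensorProduct.map_tmul, AlgHom.coe_id, id_eq]
    conv_rhs => rw [← sum_co b (X i)]
    refine Finset.sum_congr rfl fun k _ => ?_
    have h1 : e (MvPolynomial.X (true, i, k)) = co b R k (X i) := by
      refine (MvPolynomial.aeval_X _ _).trans ?_
      simp
    rw [h1]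
  have hY : (fun i => Algebra.TensorProduct.map g (AlgHom.id K S)
      (((Polynomial.X : Polynomial R0) • (cc R0 ∘ Y0)) i)) = Y := by
    funext i
    rw [Pi.smul_apply, Function.comp_apply, hmap]
    simp only [Y0, map_sum, Algebra.TensorProduct.map_tmul, AlgHom.coe_id, id_eq]
    conv_rhs => rw [← sum_co b (Y i)]
    refine Finset.sum_congr rfl fun k _ => ?_
    have h1 : e (MvPolynomial.X (false, i, k)) = co b R k (Y i) := by
      refine (MvPolynomial.aeval_X _ _).trans ?_
      simp
    rw [h1]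
  have h := JM_map b (Polynomial R0) R g φ ((Polynomial.X : Polynomial R0) • (cc R0 ∘ X0))
    ((Polynomial.X : Polynomial R0) • (cc R0 ∘ Y0))
  rw [hX, hY] at h
  rw [h]
  have h2 : ((JM b (Polynomial R0) φ ((Polynomial.X : Polynomial R0) • (cc R0 ∘ X0))
    ((Polynomial.X : Polynomial R0) • (cc R0 ∘ Y0))).map g).det =
      g (Polynomial.C r) := by
    rw [← hdet]
    exact (RingHom.map_det g.toRingHom _).symm
  rw [h2, hgC]
  exact hr.map e

/-- the points over `R`, in coordinates -/
noncomputable def pt (R : Type) [CommRing R] [Algebra K R] (x : Fin n × κ → R) (i : Fin n) :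
    R ⊗[K] S := ∑ k, x (i, k) ⊗ₜ[K] b k

/-- the coordinate functions of the polynomial map defined by `φ` -/
noncomputable def cf (φ : FreeAlgebra K (Fin n) →ₐ[K] FreeAlgebra K (Fin n)) (j : Fin n × κ) :
    MvPolynomial (Fin n × κ) K :=
  co b (MvPolynomial (Fin n × κ) K) j.2
    (lift K (pt b (MvPolynomial (Fin n × κ) K) MvPolynomial.X) (φ (ι K j.1)))

lemma aeval_cf (φ : FreeAlgebra K (Fin n) →ₐ[K] FreeAlgebra K (Fin n)) (R : Type) [CommRing R]
    [Algebra K R] (x : Fin n × κ → R) (j : Fin n × κ) :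
    MvPolynomial.aeval x (cf b φ j) = co b R j.2 (lift K (pt b R x) (φ (ι K j.1))) := by
  rw [cf, ← co_map]
  congr 1
  have h : (Algebra.TensorProduct.map (MvPolynomial.aeval x) (AlgHom.id K S)).comp
      (lift K (pt b (MvPolynomial (Fin n × κ) K) MvPolynomial.X)) = lift K (pt b R x) := by
    ext i : 2
    simp [pt]
  rw [← h]
  rfl

lemma co_pt (R : Type) [CommRing R] [Algebra K R] [DecidableEq κ] (x : Fin n × κ → R) (i : Fin n)
    (k : κ) : co b R k (pt b R x i) = x (i, k) := by
  unfold pt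
  have : co b R k (∑ k', x (i, k') ⊗ₜ[K] b k') = ∑ k', co b R k (x (i, k') ⊗ₜ[K] b k') := by
    simp [co]
  rw [this]
  simp [co_tmul, Finsupp.single_apply]

lemma pt_co (R : Type) [CommRing R] [Algebra K R] (X : Fin n → R ⊗[K] S) :
    pt b R (fun j => co b R j.2 (X j.1)) = X := by
  funext i
  exact sum_co b (X i)

include b in
theorem inj_points [DecidableEq κ] (d : ℕ)
    (φ : FreeAlgebra K (Fin n) →ₐ[K] FreeAlgebra K (Fin n)) (hd : ∀ i, φ (ι K i) ∈ degLE K n d)
    (hg : GoodAt (Fintype.card κ * n * (d - 1) + 2) φ) (R : Type) [CommRing R] [Algebra K R]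
    (X Y : Fin n → R ⊗[K] S) (h : ∀ i, lift K X (φ (ι K i)) = lift K Y (φ (ι K i))) : X = Y := by
  haveI : Module.Finite K S := Module.Finite.of_basis b
  have hu := det_const b d φ hd hg R X Y
  rw [← det_JM] at hu
  let e := LinearMap.equivOfIsUnitDet hu
  have he : ∀ H, e H = J R φ X Y H := fun H => by simp [e]
  have hz : e (X - Y) = 0 := by
    rw [he]
    funext i
    rw [J_apply, diff]
    simp [h i]
  have := e.injective (hz.trans (map_zero e).symm)
  exact sub_eq_zero.mp this

include b in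
theorem bij_points [DecidableEq κ] (d : ℕ)
    (φ : FreeAlgebra K (Fin n) →ₐ[K] FreeAlgebra K (Fin n)) (hd : ∀ i, φ (ι K i) ∈ degLE K n d)
    (hg : GoodAt (Fintype.card κ * n * (d - 1) + 2) φ) (R : Type) [CommRing R] [Algebra K R] :
    Function.Bijective fun (X : Fin n → R ⊗[K] S) (i : Fin n) => lift K X (φ (ι K i)) := by
  have hU : UInj (cf b φ) := by
    intro R' _ _ x y hxy
    have h1 : pt b R' x = pt b R' y := by
      apply inj_points b d φ hd hg R'
      intro i
      rw [← sum_co b (lift K (pt b R' x) (φ (ι K i))), ← sum_co b (lift K (pt b R' y) (φ (ι K i)))]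
      refine Finset.sum_congr rfl fun k _ => ?_
      have := hxy (i, k)
      rw [aeval_cf, aeval_cf] at this
      rw [this]
    funext j
    rw [← co_pt b R' x j.1 j.2, h1, co_pt]
  constructor
  · intro X Y hXY
    exact inj_points b d φ hd hg R X Y fun i => congrFun hXY i
  · intro Y
    obtain ⟨x, hx⟩ := surj_points hU R (fun j => co b R j.2 (Y j.1))
    refine ⟨pt b R x, ?_⟩
    funext i
    show lift K (pt b R x) (φ (ι K i)) = Y i
    rw [← sum_co b (lift K (pt b R x) (φ (ι K i))), ← sum_co b (Y i)]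
    refine Finset.sum_congr rfl fun k _ => ?_
    have := hx (i, k)
    rw [aeval_cf] at this
    rw [this]

end Pool.Agent.H316.LL
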