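import Pool.Agent.H316.LL.Det

set_option autoImplicit false

/-!
The endomorphism `x_0 ↦ x_0 + x_k^d`, `x_(i+1) ↦ x_(i+1) + x_i^d` is approximated by an automorphism to
the order `(k+1)(d-1)+1`, but it is not injective on the points over algebraically closed fields.
-/

namespace Pool.Agent.H316.LL

open FreeAlgebra

variable {K : Type} [Field K] {n : ℕ}

lemma aug_mono {p q : ℕ} (h : p ≤ q) {a : FreeAlgebra K (Fin n)} (ha : a ∈ augPow K n q) :
    a ∈ augPow K n p := by
  refine Submodule.span_mono ?_ ha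
  rintro _ ⟨l, hl, hw⟩
  exact ⟨l, h.trans hl, hw⟩

lemma aug_mul {p q : ℕ} {a b : FreeAlgebra K (Fin n)} (ha : a ∈ augPow K n p)
    (hb : b ∈ augPow K n q) : a * b ∈ augPow K n (p + q) := by
  unfold augPow at ha hb
  induction ha using Submodule.span_induction with
  | mem x hx =>
    obtain ⟨l, hl, rfl⟩ := hx
    induction hb using Submodule.span_induction with
    | mem y hy =>
      obtain ⟨l', hl', rfl⟩ := hy
      refine Submodule.subset_span ⟨l ++ l', ?_, ?_⟩
      · rw [List.length_append]
        omega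
      · rw [List.map_append, List.prod_append]
    | zero => rw [mul_zero]; exact Submodule.zero_mem _
    | add x y _ _ hx hy => rw [mul_add]; exact Submodule.add_mem _ hx hy
    | smul c x _ hx => rw [mul_smul_comm]; exact Submodule.smul_mem _ _ hx
  | zero => rw [zero_mul]; exact Submodule.zero_mem _
  | add x y _ _ hx hy => rw [add_mul]; exact Submodule.add_mem _ hx hy
  | smul c x _ hx => rw [smul_mul_assoc]; exact Submodule.smul_mem _ _ hx

lemma aug_gen (i : Fin n) : ι K i ∈ augPow K n 1 :=
  Submodule.subset_span ⟨[i], by simp, by simp⟩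

lemma aug_zero (a : FreeAlgebra K (Fin n)) : a ∈ augPow K n 0 := by
  induction a using FreeAlgebra.induction with
  | grade0 c =>
    rw [Algebra.algebraMap_eq_smul_one]
    exact Submodule.smul_mem _ _ (Submodule.subset_span ⟨[], by simp, by simp⟩)
  | grade1 i => exact aug_mono (by omega) (aug_gen i)
  | mul a b ha hb =>
    have h := aug_mul ha hb
    rwa [add_zero] at h
  | add a b ha hb => exact Submodule.add_mem _ ha hb

lemma aug_pow {a : FreeAlgebra K (Fin n)} (ha : a ∈ augPow K n 1) (d : ℕ) :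
    a ^ d ∈ augPow K n d := by
  induction d with
  | zero => exact aug_zero _
  | succ d ih => rw [pow_succ]; exact aug_mul ih ha

lemma aug_pow_sub {a b : FreeAlgebra K (Fin n)} {m : ℕ} (ha : a ∈ augPow K n 1)
    (hb : b ∈ augPow K n 1) (h : a - b ∈ augPow K n m) (d : ℕ) :
    a ^ (d + 1) - b ^ (d + 1) ∈ augPow K n (d + m) := by
  induction d with
  | zero => simpa using h
  | succ d ih =>
    have e : a ^ (d + 1 + 1) - b ^ (d + 1 + 1) = (a ^ (d + 1) - b ^ (d + 1)) * a +
        b ^ (d + 1) * (a - b) := by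
      rw [pow_succ a (d + 1), pow_succ b (d + 1), sub_mul, mul_sub]
      abel
    rw [e]
    refine Submodule.add_mem _ ?_ (aug_mul (aug_pow hb _) h)
    exact aug_mono (by omega) (aug_mul ih ha)

lemma aug_congr {m : ℕ} (φ α : FreeAlgebra K (Fin n) →ₐ[K] FreeAlgebra K (Fin n))
    (h : ∀ i, φ (ι K i) - α (ι K i) ∈ augPow K n m) (a : FreeAlgebra K (Fin n)) :
    φ a - α a ∈ augPow K n m := by
  induction a using FreeAlgebra.induction with
  | grade0 c => simp
  | grade1 i => exact h i
  | mul a b ha hb =>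
    have e : φ (a * b) - α (a * b) = (φ a - α a) * φ b + α a * (φ b - α b) := by
      rw [map_mul, map_mul, sub_mul, mul_sub]
      abel
    rw [e]
    refine Submodule.add_mem _ ?_ ?_
    · simpa using aug_mul ha (aug_zero (φ b))
    · simpa using aug_mul (aug_zero (α a)) hb
  | add a b ha hb =>
    rw [map_add, map_add, add_sub_add_comm]
    exact Submodule.add_mem _ ha hb

section Example

variable (K) (k d : ℕ)

/-- the endomorphism -/
noncomputable def phi : FreeAlgebra K (Fin (k + 1)) →ₐ[K] FreeAlgebra K (Fin (k + 1)) :=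
  lift K (Fin.cases (ι K 0 + ι K (Fin.last k) ^ d) fun i => ι K i.succ + ι K i.castSucc ^ d)

lemma phi_zero : phi K k d (ι K 0) = ι K 0 + ι K (Fin.last k) ^ d := by simp [phi]

lemma phi_succ (i : Fin k) : phi K k d (ι K i.succ) = ι K i.succ + ι K i.castSucc ^ d := by
  simp [phi]

noncomputable def beta : FreeAlgebra K (Fin (k + 1)) →ₐ[K] FreeAlgebra K (Fin (k + 1)) :=
  lift K (Fin.cases (ι K 0) fun i => ι K i.succ + ι K i.castSucc ^ d)

lemma beta_zero : beta K k d (ι K 0) = ι K 0 := by simp [beta]

lemma beta_succ (i : Fin k) : beta K k d (ι K i.succ) = ι K i.succ + ι K i.castSucc ^ d := by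
  simp [beta]

noncomputable def ws : Fin (k + 1) → FreeAlgebra K (Fin (k + 1)) :=
  Fin.induction (ι K 0) fun i w => ι K i.succ - w ^ d

lemma ws_zero : ws K k d 0 = ι K 0 := rfl

lemma ws_succ (i : Fin k) : ws K k d i.succ = ι K i.succ - ws K k d i.castSucc ^ d := by
  simp [ws]

lemma beta_ws (i : Fin (k + 1)) : beta K k d (ws K k d i) = ι K i := by
  induction i using Fin.induction with
  | zero => rw [ws_zero, beta_zero]
  | succ i ih => rw [ws_succ, map_sub, map_pow, ih, beta_succ]; abel

noncomputable def betaE : FreeAlgebra K (Fin (k + 1)) ≃ₐ[K] FreeAlgebra K (Fin (k + 1)) :=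
  AlgEquiv.ofAlgHom (beta K k d) (lift K (ws K k d))
    (by
      ext i
      simp [beta_ws])
    (by
      ext i
      refine Fin.cases ?_ (fun i => ?_) i
      · simp [beta_zero, ws_zero]
      · simp [beta_succ, ws_succ])

noncomputable def us : Fin (k + 1) → FreeAlgebra K (Fin (k + 1)) :=
  Fin.induction 0 fun i w => ι K i.succ - w ^ d

lemma us_zero : us K k d 0 = 0 := rfl

lemma us_succ (i : Fin k) : us K k d i.succ = ι K i.succ - us K k d i.castSucc ^ d := by
  simp [us]

/-- the automorphism `x_0 ↦ x_0 + c u_k^d` -/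
noncomputable def gam (c : K) : FreeAlgebra K (Fin (k + 1)) →ₐ[K] FreeAlgebra K (Fin (k + 1)) :=
  lift K (Fin.cases (ι K 0 + c • us K k d (Fin.last k) ^ d) fun i => ι K i.succ)

lemma gam_zero (c : K) : gam K k d c (ι K 0) = ι K 0 + c • us K k d (Fin.last k) ^ d := by
  simp [gam]

lemma gam_succ (c : K) (i : Fin k) : gam K k d c (ι K i.succ) = ι K i.succ := by
  simp [gam]

lemma gam_us (c : K) (i : Fin (k + 1)) : gam K k d c (us K k d i) = us K k d i := by
  induction i using Fin.induction with
  | zero => rw [us_zero, map_zero]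
  | succ i ih => rw [us_succ, map_sub, map_pow, ih, gam_succ]

noncomputable def gamE : FreeAlgebra K (Fin (k + 1)) ≃ₐ[K] FreeAlgebra K (Fin (k + 1)) :=
  AlgEquiv.ofAlgHom (gam K k d 1) (gam K k d (-1))
    (by
      ext i
      refine Fin.cases ?_ (fun i => ?_) i
      · simp [gam_zero, gam_us]
      · simp [gam_succ])
    (by
      ext i
      refine Fin.cases ?_ (fun i => ?_) i
      · simp [gam_zero, gam_us]
      · simp [gam_succ])

noncomputable def alphaE : FreeAlgebra K (Fin (k + 1)) ≃ₐ[K] FreeAlgebra K (Fin (k + 1)) :=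
  (gamE K k d).trans (betaE K k d)

lemma alpha_succ (i : Fin k) : alphaE K k d (ι K i.succ) = ι K i.succ + ι K i.castSucc ^ d := by
  show beta K k d (gam K k d 1 (ι K i.succ)) = _
  rw [gam_succ, beta_succ]

lemma alpha_zero : alphaE K k d (ι K 0) =
    ι K 0 + beta K k d (us K k d (Fin.last k)) ^ d := by
  show beta K k d (gam K k d 1 (ι K 0)) = _
  rw [gam_zero, map_add, beta_zero, one_smul, map_pow]

lemma us_aug (e : ℕ) (i : Fin (k + 1)) : us K k (e + 1) i ∈ augPow K (k + 1) 1 := by
  induction i using Fin.induction with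
  | zero => rw [us_zero]; exact Submodule.zero_mem _
  | succ i ih =>
    rw [us_succ]
    exact Submodule.sub_mem _ (aug_gen _) (aug_mono (by omega) (aug_pow ih (e + 1)))

lemma beta_us_aug (e : ℕ) (i : Fin (k + 1)) :
    beta K k (e + 1) (us K k (e + 1) i) ∈ augPow K (k + 1) 1 := by
  induction i using Fin.induction with
  | zero => rw [us_zero, map_zero]; exact Submodule.zero_mem _
  | succ i ih =>
    rw [us_succ, map_sub, beta_succ, map_pow]
    exact Submodule.sub_mem _ (Submodule.add_mem _ (aug_gen _)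
      (aug_mono (by omega) (aug_pow (aug_gen _) (e + 1)))) (aug_mono (by omega) (aug_pow ih (e + 1)))

lemma key_aug (e : ℕ) (i : Fin (k + 1)) :
    ι K i - beta K k (e + 1) (us K k (e + 1) i) ∈ augPow K (k + 1) (i.val * e + 1) := by
  induction i using Fin.induction with
  | zero =>
    rw [us_zero, map_zero, sub_zero]
    exact aug_mono (by simp) (aug_gen _)
  | succ i ih =>
    rw [us_succ, map_sub, beta_succ, map_pow]
    have e1 : ι K i.succ - (ι K i.succ + ι K i.castSucc ^ (e + 1) -
        beta K k (e + 1) (us K k (e + 1) i.castSucc) ^ (e + 1)) =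
        -(ι K i.castSucc ^ (e + 1) - beta K k (e + 1) (us K k (e + 1) i.castSucc) ^ (e + 1)) := by
      abel
    rw [e1]
    refine Submodule.neg_mem _ (aug_mono ?_ (aug_pow_sub (aug_gen _) (beta_us_aug K k e _) ih e))
    simp only [Fin.val_succ, Fin.val_castSucc]
    ring_nf
    omega

/-- the example is good at the level `(k+1)(d-1)+1` -/
lemma phi_good (e : ℕ) : GoodAt ((k + 1) * e + 1) (phi K k (e + 1)) := by
  refine ⟨(phi K k (e + 1)).comp (alphaE K k (e + 1)).symm.toAlgHom, alphaE K k (e + 1), ?_, ?_⟩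
  · ext i
    simp
  · intro i
    have h := aug_congr (m := (k + 1) * e + 1) (phi K k (e + 1)) (alphaE K k (e + 1)).toAlgHom (by
      intro i
      refine Fin.cases ?_ (fun i => ?_) i
      · show phi K k (e + 1) (ι K 0) - alphaE K k (e + 1) (ι K 0) ∈ _
        rw [phi_zero, alpha_zero]
        have h1 := aug_pow_sub (aug_gen _) (beta_us_aug K k e _) (key_aug K k e (Fin.last k)) e
        rw [add_sub_add_left_eq_sub]
        refine aug_mono ?_ h1
        simp only [Fin.val_last]
        ring_nf
        omega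
      · show phi K k (e + 1) (ι K i.succ) - alphaE K k (e + 1) (ι K i.succ) ∈ _
        rw [phi_succ, alpha_succ, sub_self]
        exact Submodule.zero_mem _) ((alphaE K k (e + 1)).symm (ι K i))
    simpa using h

lemma phi_deg (e : ℕ) (i : Fin (k + 1)) :
    phi K k (e + 1) (ι K i) ∈ degLE K (k + 1) (e + 1) := by
  have h1 : ∀ j : Fin (k + 1), ι K j ∈ degLE K (k + 1) (e + 1) := fun j =>
    Submodule.subset_span ⟨[j], by simp, by simp⟩
  have h2 : ∀ j : Fin (k + 1), ι K j ^ (e + 1) ∈ degLE K (k + 1) (e + 1) := fun j =>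
    Submodule.subset_span ⟨List.replicate (e + 1) j, by simp, by simp⟩
  refine Fin.cases ?_ (fun i => ?_) i
  · rw [phi_zero]
    exact Submodule.add_mem _ (h1 _) (h2 _)
  · rw [phi_succ]
    exact Submodule.add_mem _ (h1 _) (h2 _)

/-- the example is not injective on points over algebraically closed fields -/
lemma phi_not_inj (e : ℕ) (he : 0 < e) (L : Type) [Field L] [Algebra K L] [IsAlgClosed L] :
    ¬ Function.Injective fun (x : Fin (k + 1) → L) (i : Fin (k + 1)) =>
      lift K x (phi K k (e + 1) (ι K i)) := by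
  let v : L → Fin (k + 1) → L := fun z => Fin.induction z fun _ w => -w ^ (e + 1)
  have v0 : ∀ z, v z 0 = z := fun z => rfl
  have vs : ∀ z (i : Fin k), v z i.succ = -(v z i.castSucc) ^ (e + 1) := fun z i => by
    simp [v]
  have hv : ∀ i : Fin (k + 1), ∃ s : L, s ≠ 0 ∧ ∀ z, v z i = s * z ^ ((e + 1) ^ i.val) := by
    intro i
    induction i using Fin.induction with
    | zero => exact ⟨1, one_ne_zero, fun z => by simp [v0]⟩
    | succ i ih =>
      obtain ⟨s, hs, h⟩ := ih
      refine ⟨-s ^ (e + 1), neg_ne_zero.2 (pow_ne_zero _ hs), fun z => ?_⟩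
      rw [vs, h, mul_pow, ← pow_mul]
      simp only [Fin.val_succ, Fin.val_castSucc, pow_succ]
      ring
  obtain ⟨s, hs, h⟩ := hv (Fin.last k)
  have hN : 0 < (e + 1) ^ (k + 1) - 1 := by
    have : (e + 1) ^ 1 ≤ (e + 1) ^ (k + 1) := Nat.pow_le_pow_right (by omega) (by omega)
    rw [pow_one] at this
    omega
  obtain ⟨z, hz⟩ := IsAlgClosed.exists_pow_nat_eq (-(s ^ (e + 1))⁻¹) hN
  have hs' : s ^ (e + 1) ≠ 0 := pow_ne_zero _ hs
  have hz0 : z ≠ 0 := by
    rintro rfl
    rw [zero_pow (by omega)] at hz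
    exact (neg_ne_zero.2 (inv_ne_zero hs')) hz.symm
  intro hinj
  have h1 : v z = 0 := by
    apply hinj
    funext i
    refine Fin.cases ?_ (fun i => ?_) i
    · show lift K (v z) (phi K k (e + 1) (ι K 0)) = lift K 0 (phi K k (e + 1) (ι K 0))
      rw [phi_zero]
      have h2 : z + (v z (Fin.last k)) ^ (e + 1) = 0 := by
        rw [h, mul_pow, ← pow_mul, Fin.val_last, ← pow_succ]
        have h3 : z ^ (e + 1) ^ (k + 1) = z ^ ((e + 1) ^ (k + 1) - 1) * z := by
          rw [← pow_succ]
          congr 1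
          omega
        rw [h3, hz]
        field_simp
        ring
      simp [v0, h2]
    · show lift K (v z) (phi K k (e + 1) (ι K i.succ)) = lift K 0 (phi K k (e + 1) (ι K i.succ))
      rw [phi_succ]
      simp [vs]
  have h4 := congrFun h1 0
  rw [v0] at h4
  exact hz0 h4

end Example

end Pool.Agent.H316.LL
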