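import Pool.Agent.H316.LL.Det

set_option autoImplicit false
set_option linter.unusedSectionVars false

/-!
Algebras with a finite filtration by ideals with commutative quotient: bijectivity on points.
-/

namespace Pool.Agent.H316.LL

open FreeAlgebra Pool.Agent.H2.FreeGood TensorProduct

variable {K : Type} [Field K] {n : ℕ}

lemma J_bij (d : ℕ) (φ : FreeAlgebra K (Fin n) →ₐ[K] FreeAlgebra K (Fin n))
    (hd : ∀ i, φ (ι K i) ∈ degLE K n d) (hg : GoodAt (n * (d - 1) + 2) φ)
    (R : Type) [CommRing R] [Algebra K R] (x y : Fin n → R) :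
    Function.Bijective (J R φ x y) := by
  classical
  let b : Module.Basis Unit K K := Module.Basis.singleton Unit K
  have hg' : GoodAt (Fintype.card Unit * n * (d - 1) + 2) φ := by
    rw [Fintype.card_unit, one_mul]
    exact hg
  let θ : R ≃ₐ[K] R ⊗[K] K := (Algebra.TensorProduct.rid K K R).symm
  have hu := det_const b d φ hd hg' R (θ ∘ x) (θ ∘ y)
  rw [← det_JM] at hu
  let e := LinearMap.equivOfIsUnitDet hu
  have he : ∀ H, e H = J R φ (θ ∘ x) (θ ∘ y) H := fun H => by simp [e]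
  have hθ : ∀ h : Fin n → R, J R φ (θ ∘ x) (θ ∘ y) (θ ∘ h) = θ ∘ (J R φ x y h) := by
    intro h
    funext i
    rw [J_apply, Function.comp_apply, J_apply]
    exact (nat (θ : R →ₐ[K] R ⊗[K] K) x h y (φ (ι K i))).symm
  constructor
  · intro h h' hh
    have h1 : θ ∘ h = θ ∘ h' := by
      apply e.injective
      rw [he, he, hθ, hθ, hh]
    funext i
    exact θ.injective (congrFun h1 i)
  · intro z
    obtain ⟨H, hH⟩ := e.surjective (θ ∘ z)
    refine ⟨fun i => θ.symm (H i), ?_⟩
    have h1 : θ ∘ (fun i => θ.symm (H i)) = H := by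
      funext i
      simp
    have h2 := hθ (fun i => θ.symm (H i))
    rw [h1, ← he, hH] at h2
    funext i
    exact θ.injective (congrFun h2 i).symm

lemma point_surj (d : ℕ) (φ : FreeAlgebra K (Fin n) →ₐ[K] FreeAlgebra K (Fin n))
    (hd : ∀ i, φ (ι K i) ∈ degLE K n d) (hg : GoodAt (n * (d - 1) + 2) φ)
    (R : Type) [CommRing R] [Algebra K R] (z : Fin n → R) :
    ∃ x : Fin n → R, ∀ i, lift K x (φ (ι K i)) = z i := by
  classical
  let b : Module.Basis Unit K K := Module.Basis.singleton Unit K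
  have hg' : GoodAt (Fintype.card Unit * n * (d - 1) + 2) φ := by
    rw [Fintype.card_unit, one_mul]
    exact hg
  let θ : R ≃ₐ[K] R ⊗[K] K := (Algebra.TensorProduct.rid K K R).symm
  obtain ⟨X, hX⟩ := (bij_points b d φ hd hg' R).2 (θ ∘ z)
  refine ⟨fun i => θ.symm (X i), fun i => ?_⟩
  apply θ.injective
  have h6 : lift K X = (θ : R →ₐ[K] R ⊗[K] K).comp (lift K fun i => θ.symm (X i)) := by
    ext i : 2
    simp
  have h7 := congrFun hX i
  simp only at h7
  rw [h6] at h7
  exact h7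

section Fil

variable {E : Type} [Ring E] [Algebra K E] (F : ℕ → Submodule K E)

/-- a multiplicative filtration with commutative first layer -/
structure Fil : Prop where
  h0 : ∀ a, a ∈ F 0
  hl : ∀ k a x, x ∈ F k → a * x ∈ F k
  hr : ∀ k a x, x ∈ F k → x * a ∈ F k
  hc : ∀ a b, a * b - b * a ∈ F 1
  hm : ∀ k x y, x ∈ F 1 → y ∈ F k → x * y ∈ F (k + 1)
  hm' : ∀ k x y, x ∈ F k → y ∈ F 1 → x * y ∈ F (k + 1)
  hle : ∀ k x, x ∈ F (k + 1) → x ∈ F k

variable {F} (hF : Fil F) (k : ℕ)

/-- the layer -/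
abbrev Gr (F : ℕ → Submodule K E) (k : ℕ) : Type :=
  (F k) ⧸ (Submodule.comap (F k).subtype (F (k + 1)))

/-- class in the layer -/
noncomputable def cl (F : ℕ → Submodule K E) (k : ℕ) : (F k) →ₗ[K] Gr F k :=
  Submodule.mkQ _

lemma cl_eq_zero (x : F k) : cl F k x = 0 ↔ (x : E) ∈ F (k + 1) := by
  rw [cl, Submodule.mkQ_apply, Submodule.Quotient.mk_eq_zero, Submodule.mem_comap]
  rfl

lemma cl_surj (g : Gr F k) : ∃ x : F k, cl F k x = g := Submodule.mkQ_surjective _ g

/-- left multiplication -/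
noncomputable def opL (a : E) : Module.End K (Gr F k) :=
  Submodule.mapQ _ _ ((LinearMap.mulLeft K a).restrict (fun x hx => hF.hl k a x hx))
    (by
      intro x hx
      exact hF.hl (k + 1) a x hx)

/-- right multiplication -/
noncomputable def opR (a : E) : Module.End K (Gr F k) :=
  Submodule.mapQ _ _ ((LinearMap.mulRight K a).restrict (fun x hx => hF.hr k a x hx))
    (by
      intro x hx
      exact hF.hr (k + 1) a x hx)

lemma opL_cl (a : E) (x : F k) : opL hF k a (cl F k x) = cl F k ⟨a * x, hF.hl k a x x.2⟩ := rfl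

lemma opR_cl (a : E) (x : F k) : opR hF k a (cl F k x) = cl F k ⟨x * a, hF.hr k a x x.2⟩ := rfl

lemma LL_comm (a b : E) : opL hF k a * opL hF k b = opL hF k b * opL hF k a := by
  refine LinearMap.ext fun g => ?_
  obtain ⟨x, rfl⟩ := cl_surj k g
  rw [Module.End.mul_apply, Module.End.mul_apply, opL_cl, opL_cl, opL_cl, opL_cl, ← sub_eq_zero,
    ← map_sub, cl_eq_zero]
  have h : a * (b * (x : E)) - b * (a * (x : E)) = (a * b - b * a) * x := by
    rw [sub_mul, mul_assoc, mul_assoc]
  show a * (b * (x : E)) - b * (a * (x : E)) ∈ _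
  rw [h]
  exact hF.hm k _ _ (hF.hc a b) x.2

lemma RR_comm (a b : E) : opR hF k a * opR hF k b = opR hF k b * opR hF k a := by
  refine LinearMap.ext fun g => ?_
  obtain ⟨x, rfl⟩ := cl_surj k g
  rw [Module.End.mul_apply, Module.End.mul_apply, opR_cl, opR_cl, opR_cl, opR_cl, ← sub_eq_zero,
    ← map_sub, cl_eq_zero]
  have h : (x : E) * b * a - (x : E) * a * b = x * (b * a - a * b) := by
    rw [mul_sub, mul_assoc, mul_assoc]
  show (x : E) * b * a - (x : E) * a * b ∈ _
  rw [h]
  exact hF.hm' k _ _ x.2 (hF.hc b a)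

lemma LR_comm (a b : E) : opL hF k a * opR hF k b = opR hF k b * opL hF k a := by
  refine LinearMap.ext fun g => ?_
  obtain ⟨x, rfl⟩ := cl_surj k g
  rw [Module.End.mul_apply, Module.End.mul_apply, opR_cl, opL_cl, opL_cl, opR_cl]
  congr 1
  apply Subtype.ext
  show a * ((x : E) * b) = a * x * b
  rw [mul_assoc]

/-- the generators of the commutative ring of operators -/
def gens (X Y : Fin n → E) : Set (Module.End K (Gr F k)) :=
  {f | (∃ i, f = opL hF k (X i)) ∨ ∃ i, f = opR hF k (Y i)}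

lemma gens_comm (X Y : Fin n → E) :
    ∀ a ∈ gens hF k X Y, ∀ b ∈ gens hF k X Y, a * b = b * a := by
  rintro _ (⟨i, rfl⟩ | ⟨i, rfl⟩) _ (⟨j, rfl⟩ | ⟨j, rfl⟩)
  · exact LL_comm hF k _ _
  · exact LR_comm hF k _ _
  · exact (LR_comm hF k _ _).symm
  · exact RR_comm hF k _ _

end Fil

end Pool.Agent.H316.LL
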