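import Pool.Agent.H316.LL.Det

set_option autoImplicit false
set_option linter.unusedSectionVars false

/-!
Injectivity on the points in algebras of upper triangular matrices.
-/

namespace Pool.Agent.H316.LL

open FreeAlgebra Pool.Agent.H2.FreeGood TensorProduct

variable {K : Type} [Field K] {n : ℕ}

variable {M : Type} [Ring M] [Algebra K M] {κ : Type} [Fintype κ] (b : Module.Basis κ K M)

include b in
/-- the case of one block -/
lemma inj_J (d : ℕ) (φ : FreeAlgebra K (Fin n) →ₐ[K] FreeAlgebra K (Fin n))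
    (hd : ∀ i, φ (ι K i) ∈ degLE K n d) (hg : GoodAt (Fintype.card κ * n * (d - 1) + 2) φ)
    (R : Type) [CommRing R] [Algebra K R] (x y h : Fin n → R ⊗[K] M)
    (h0 : ∀ i, lift K (T x h y) (φ (ι K i)) 0 1 = 0) : h = 0 := by
  classical
  have hfin : Module.Finite K M := Module.Finite.of_basis b
  have hu := det_const b d φ hd hg R x y
  rw [← det_JM] at hu
  let e := LinearMap.equivOfIsUnitDet hu
  have he : ∀ H, e H = J R φ x y H := fun H => by simp [e]
  have hz : e h = 0 := by
    rw [he]
    funext i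
    rw [J_apply]
    exact h0 i
  exact e.injective (hz.trans (map_zero e).symm)

lemma prod01 {B : Type} [CommRing B] {C : Type} [Ring C] [Algebra K C] [Algebra B C]
    (X H Y : Fin n → C) (u v : FreeAlgebra K (Fin n)) :
    lift K (T X H Y) (u * v) 0 1 = lift K X u * lift K (T X H Y) v 0 1 +
      lift K (T X H Y) u 0 1 * lift K Y v := by
  obtain ⟨L, hL⟩ := ex B X Y u
  obtain ⟨L', hL'⟩ := ex B X Y v
  rw [map_mul, hL, hL']
  simp [Matrix.mul_apply, Fin.sum_univ_two]

section Tri

variable {C : Type} [Ring C] [Algebra K C] {N : ℕ}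

/-- the invariant which is used for the entry `(a, b)` -/
lemma tri_inv (a b : Fin N) (X H Y : Fin n → Matrix (Fin N) (Fin N) C)
    (hX : ∀ i, ∀ c e, e < c → X i c e = 0) (hY : ∀ i, ∀ c e, e < c → Y i c e = 0)
    (hH : ∀ i, ∀ c e, a ≤ c → e ≤ b → (c, e) ≠ (a, b) → H i c e = 0)
    (w : FreeAlgebra K (Fin n)) :
    (∀ c e, e < c → lift K X w c e = 0) ∧ (∀ c e, e < c → lift K Y w c e = 0) ∧
    lift K X w a a = lift K (fun i => X i a a) w ∧
    lift K Y w b b = lift K (fun i => Y i b b) w ∧
    (∀ c e, a ≤ c → e ≤ b → (c, e) ≠ (a, b) → lift K (T X H Y) w 0 1 c e = 0) ∧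
    lift K (T X H Y) w 0 1 a b =
      lift K (T (fun i => X i a a) (fun i => H i a b) (fun i => Y i b b)) w 0 1 := by
  induction w using FreeAlgebra.induction with
  | grade0 r =>
    refine ⟨?_, ?_, ?_, ?_, ?_, ?_⟩
    · intro c e h
      rw [AlgHom.commutes, Matrix.algebraMap_matrix_apply, if_neg (ne_of_gt h)]
    · intro c e h
      rw [AlgHom.commutes, Matrix.algebraMap_matrix_apply, if_neg (ne_of_gt h)]
    · rw [AlgHom.commutes, Matrix.algebraMap_matrix_apply, if_pos rfl, AlgHom.commutes]
    · rw [AlgHom.commutes, Matrix.algebraMap_matrix_apply, if_pos rfl, AlgHom.commutes]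
    · intro c e _ _ _
      rw [AlgHom.commutes, alg]
      simp
    · rw [AlgHom.commutes, alg, AlgHom.commutes, alg]
      simp
  | grade1 i =>
    refine ⟨?_, ?_, ?_, ?_, ?_, ?_⟩
    · intro c e h
      rw [lift_ι_apply]
      exact hX i c e h
    · intro c e h
      rw [lift_ι_apply]
      exact hY i c e h
    · rw [lift_ι_apply, lift_ι_apply]
    · rw [lift_ι_apply, lift_ι_apply]
    · intro c e h1 h2 h3
      rw [lift_ι_apply]
      exact hH i c e h1 h2 h3
    · rw [lift_ι_apply, lift_ι_apply]
      rfl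
  | mul u v hu hv =>
    obtain ⟨u1, u2, u3, u4, u5, u6⟩ := hu
    obtain ⟨v1, v2, v3, v4, v5, v6⟩ := hv
    refine ⟨?_, ?_, ?_, ?_, ?_, ?_⟩
    · intro c e h
      rw [map_mul, Matrix.mul_apply]
      refine Finset.sum_eq_zero fun f _ => ?_
      rcases lt_or_ge f c with h1 | h1
      · rw [u1 c f h1, zero_mul]
      · rw [v1 f e (lt_of_lt_of_le h h1), mul_zero]
    · intro c e h
      rw [map_mul, Matrix.mul_apply]
      refine Finset.sum_eq_zero fun f _ => ?_
      rcases lt_or_ge f c with h1 | h1
      · rw [u2 c f h1, zero_mul]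
      · rw [v2 f e (lt_of_lt_of_le h h1), mul_zero]
    · rw [map_mul, map_mul, Matrix.mul_apply, ← u3, ← v3]
      refine Finset.sum_eq_single a (fun f _ hf => ?_) (fun h => absurd (Finset.mem_univ _) h)
      rcases lt_or_gt_of_ne hf with h1 | h1
      · rw [u1 a f h1, zero_mul]
      · rw [v1 f a h1, mul_zero]
    · rw [map_mul, map_mul, Matrix.mul_apply, ← u4, ← v4]
      refine Finset.sum_eq_single b (fun f _ hf => ?_) (fun h => absurd (Finset.mem_univ _) h)
      rcases lt_or_gt_of_ne hf with h1 | h1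
      · rw [u2 b f h1, zero_mul]
      · rw [v2 f b h1, mul_zero]
    · intro c e h1 h2 h3
      rw [prod01 (B := ℤ), Matrix.add_apply, Matrix.mul_apply, Matrix.mul_apply]
      have e1 : ∑ f, lift K X u c f * lift K (T X H Y) v 0 1 f e = 0 := by
        refine Finset.sum_eq_zero fun f _ => ?_
        rcases lt_or_ge f c with h4 | h4
        · rw [u1 c f h4, zero_mul]
        · rw [v5 f e (h1.trans h4) h2, mul_zero]
          rintro h5
          obtain ⟨h6, h7⟩ := Prod.mk.inj h5
          apply h3
          rw [h7, le_antisymm (h4.trans h6.le) h1]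
      have e2 : ∑ f, lift K (T X H Y) u 0 1 c f * lift K Y v f e = 0 := by
        refine Finset.sum_eq_zero fun f _ => ?_
        rcases lt_or_ge e f with h4 | h4
        · rw [v2 f e h4, mul_zero]
        · rw [u5 c f h1 (h4.trans h2), zero_mul]
          rintro h5
          obtain ⟨h6, h7⟩ := Prod.mk.inj h5
          apply h3
          rw [h6, le_antisymm h2 (h7.ge.trans h4)]
      rw [e1, e2, add_zero]
    · rw [prod01 (B := ℤ), prod01 (B := ℤ), Matrix.add_apply, Matrix.mul_apply, Matrix.mul_apply,
        ← u3, ← v4, ← u6, ← v6]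
      congr 1
      · refine Finset.sum_eq_single a (fun f _ hf => ?_) (fun h => absurd (Finset.mem_univ _) h)
        rcases lt_or_gt_of_ne hf with h1 | h1
        · rw [u1 a f h1, zero_mul]
        · rw [v5 f b h1.le le_rfl, mul_zero]
          intro h5
          exact hf (Prod.mk.inj h5).1
      · refine Finset.sum_eq_single b (fun f _ hf => ?_) (fun h => absurd (Finset.mem_univ _) h)
        rcases lt_or_gt_of_ne hf with h1 | h1
        · rw [u5 a f le_rfl h1.le, zero_mul]
          intro h5
          exact hf (Prod.mk.inj h5).2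
        · rw [v2 f b h1, mul_zero]
  | add u v hu hv =>
    obtain ⟨u1, u2, u3, u4, u5, u6⟩ := hu
    obtain ⟨v1, v2, v3, v4, v5, v6⟩ := hv
    refine ⟨?_, ?_, ?_, ?_, ?_, ?_⟩
    · intro c e h
      rw [map_add, Matrix.add_apply, u1 c e h, v1 c e h, add_zero]
    · intro c e h
      rw [map_add, Matrix.add_apply, u2 c e h, v2 c e h, add_zero]
    · rw [map_add, map_add, Matrix.add_apply, u3, v3]
    · rw [map_add, map_add, Matrix.add_apply, u4, v4]
    · intro c e h1 h2 h3
      rw [map_add, Matrix.add_apply, Matrix.add_apply, u5 c e h1 h2 h3, v5 c e h1 h2 h3, add_zero]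
    · rw [map_add, map_add, Matrix.add_apply, Matrix.add_apply, Matrix.add_apply, u6, v6]

include b in
lemma tri_inj (d : ℕ) (φ : FreeAlgebra K (Fin n) →ₐ[K] FreeAlgebra K (Fin n))
    (hd : ∀ i, φ (ι K i) ∈ degLE K n d) (hg : GoodAt (Fintype.card κ * n * (d - 1) + 2) φ)
    (R : Type) [CommRing R] [Algebra K R] (X H Y : Fin n → Matrix (Fin N) (Fin N) (R ⊗[K] M))
    (hX : ∀ i, ∀ c e, e < c → X i c e = 0) (hY : ∀ i, ∀ c e, e < c → Y i c e = 0)
    (hH : ∀ i, ∀ c e, e < c → H i c e = 0)
    (h0 : ∀ i, lift K (T X H Y) (φ (ι K i)) 0 1 = 0) : H = 0 := by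
  have key : ∀ k : ℕ, ∀ a c' : Fin N, a ≤ c' → c'.val - a.val = k → ∀ i, H i a c' = 0 := by
    intro k
    induction k using Nat.strong_induction_on with
    | _ k ih =>
      intro a c' hab hk
      have hreg : ∀ i, ∀ c e, a ≤ c → e ≤ c' → (c, e) ≠ (a, c') → H i c e = 0 := by
        intro i c e hc he hne
        rcases lt_or_ge e c with hlt | hge
        · exact hH i c e hlt
        · refine ih (e.val - c.val) ?_ c e hge rfl i
          have h1 : a.val ≤ c.val := hc
          have h2 : e.val ≤ c'.val := he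
          have h3 : c.val ≤ e.val := hge
          have h4 : ¬ (c.val = a.val ∧ e.val = c'.val) := by
            rintro ⟨h5, h6⟩
            exact hne (by rw [Fin.ext h5, Fin.ext h6])
          have h5 : a.val ≤ c'.val := hab
          omega
      have hz : (fun i => H i a c') = 0 := by
        apply inj_J b d φ hd hg R (fun i => X i a a) (fun i => Y i c' c')
        intro i
        have := (tri_inv a c' X H Y hX hY hreg (φ (ι K i))).2.2.2.2.2
        rw [← this, h0 i]
        rfl
      intro i
      exact congrFun hz i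
  funext i
  ext a c' : 2
  rcases lt_or_ge c' a with hlt | hge
  · exact hH i a c' hlt
  · exact key _ a c' hge rfl i

end Tri

end Pool.Agent.H316.LL
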