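import Pool.Agent.H316.LL.Lay
import Pool.Agent.H316.LL.TriM

set_option autoImplicit false
set_option linter.unusedSectionVars false

namespace Pool.Agent.H316.LL

open FreeAlgebra Pool.Agent.H2.FreeGood TensorProduct

variable {K : Type} [Field K] {n : ℕ} {E : Type} [Ring E] [Algebra K E] {F : ℕ → Submodule K E}
  (hF : Fil F) (k : ℕ)

lemma opL_mul (a b : E) : opL hF k (a * b) = opL hF k a * opL hF k b := by
  refine LinearMap.ext fun g => ?_
  obtain ⟨x, rfl⟩ := cl_surj k g
  rw [Module.End.mul_apply, opL_cl, opL_cl, opL_cl]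
  congr 1
  exact Subtype.ext (mul_assoc _ _ _)

lemma opR_mul (a b : E) : opR hF k (a * b) = opR hF k b * opR hF k a := by
  refine LinearMap.ext fun g => ?_
  obtain ⟨x, rfl⟩ := cl_surj k g
  rw [Module.End.mul_apply, opR_cl, opR_cl, opR_cl]
  congr 1
  exact Subtype.ext (mul_assoc _ _ _).symm

lemma opL_add (a b : E) : opL hF k (a + b) = opL hF k a + opL hF k b := by
  refine LinearMap.ext fun g => ?_
  obtain ⟨x, rfl⟩ := cl_surj k g
  rw [LinearMap.add_apply, opL_cl, opL_cl, opL_cl, ← map_add]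
  congr 1
  exact Subtype.ext (add_mul _ _ _)

lemma opR_add (a b : E) : opR hF k (a + b) = opR hF k a + opR hF k b := by
  refine LinearMap.ext fun g => ?_
  obtain ⟨x, rfl⟩ := cl_surj k g
  rw [LinearMap.add_apply, opR_cl, opR_cl, opR_cl, ← map_add]
  congr 1
  exact Subtype.ext (mul_add _ _ _)

lemma opL_alg (c : K) : opL hF k (algebraMap K E c) = algebraMap K _ c := by
  refine LinearMap.ext fun g => ?_
  obtain ⟨x, rfl⟩ := cl_surj k g
  rw [opL_cl, Module.algebraMap_end_apply, ← map_smul]
  congr 1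
  exact Subtype.ext (Algebra.smul_def _ _).symm

lemma opR_alg (c : K) : opR hF k (algebraMap K E c) = algebraMap K _ c := by
  refine LinearMap.ext fun g => ?_
  obtain ⟨x, rfl⟩ := cl_surj k g
  rw [opR_cl, Module.algebraMap_end_apply, ← map_smul]
  congr 1
  apply Subtype.ext
  show (x : E) * algebraMap K E c = c • (x : E)
  rw [Algebra.smul_def, Algebra.commutes]

lemma exists_T (X Y : Fin n → E) : ∃ (T : Type) (_ : CommRing T) (_ : Algebra K T)
    (act : T →ₐ[K] Module.End K (Gr F k)) (x y : Fin n → T),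
    (∀ i, act (x i) = opL hF k (X i)) ∧ ∀ i, act (y i) = opR hF k (Y i) := by
  letI := Algebra.adjoinCommRingOfComm K (gens_comm hF k X Y)
  exact ⟨Algebra.adjoin K (gens hF k X Y), inferInstance, inferInstance,
    (Algebra.adjoin K (gens hF k X Y)).val,
    fun i => ⟨opL hF k (X i), Algebra.subset_adjoin (Or.inl ⟨i, rfl⟩)⟩,
    fun i => ⟨opR hF k (Y i), Algebra.subset_adjoin (Or.inr ⟨i, rfl⟩)⟩,
    fun i => rfl, fun i => rfl⟩

section Act

variable {T' : Type} [CommRing T'] [Algebra K T'] (act : T' →ₐ[K] Module.End K (Gr F k))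
  (x y : Fin n → T') (X Y : Fin n → E) (hx : ∀ i, act (x i) = opL hF k (X i))
  (hy : ∀ i, act (y i) = opR hF k (Y i))

include hx in
lemma act_L (w : FreeAlgebra K (Fin n)) : act (lift K x w) = opL hF k (lift K X w) := by
  induction w using FreeAlgebra.induction with
  | grade0 c => rw [AlgHom.commutes, AlgHom.commutes, AlgHom.commutes, opL_alg]
  | grade1 i => rw [lift_ι_apply, lift_ι_apply, hx]
  | mul u v hu hv => rw [map_mul, map_mul, map_mul, hu, hv, opL_mul]
  | add u v hu hv => rw [map_add, map_add, map_add, hu, hv, opL_add]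

include hy in
lemma act_R (w : FreeAlgebra K (Fin n)) : act (lift K y w) = opR hF k (lift K Y w) := by
  induction w using FreeAlgebra.induction with
  | grade0 c => rw [AlgHom.commutes, AlgHom.commutes, AlgHom.commutes, opR_alg]
  | grade1 i => rw [lift_ι_apply, lift_ι_apply, hy]
  | mul u v hu hv => rw [map_mul, map_mul, map_mul, hu, hv, opR_mul, RR_comm]
  | add u v hu hv => rw [map_add, map_add, map_add, hu, hv, opR_add]

include hF in
lemma mem_Q (H : Fin n → F k) (w : FreeAlgebra K (Fin n)) :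
    lift K (T X (fun i => (H i : E)) Y) w 0 1 ∈ F k := by
  induction w using FreeAlgebra.induction with
  | grade0 c => rw [AlgHom.commutes, alg]; simp
  | grade1 i => rw [lift_ι_apply]; exact (H i).2
  | mul u v hu hv =>
    rw [prod01 (B := ℤ)]
    exact Submodule.add_mem _ (hF.hl _ _ _ hv) (hF.hr _ _ _ hu)
  | add u v hu hv => rw [map_add]; exact Submodule.add_mem _ hu hv

include hx hy in
lemma cl_Q (H : Fin n → F k) (w : FreeAlgebra K (Fin n)) :
    cl F k ⟨lift K (T X (fun i => (H i : E)) Y) w 0 1, mem_Q hF k X Y H w⟩ =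
      ∑ j, act (lift K (T x (Pi.single j 1) y) w 0 1) (cl F k (H j)) := by
  classical
  induction w using FreeAlgebra.induction with
  | grade0 c =>
    have h1 : cl F k ⟨lift K (T X (fun i => (H i : E)) Y) (algebraMap K _ c) 0 1,
        mem_Q hF k X Y H _⟩ = 0 := by
      rw [cl_eq_zero]
      show lift K (T X (fun i => (H i : E)) Y) (algebraMap K _ c) 0 1 ∈ _
      rw [AlgHom.commutes, alg]
      simp
    rw [h1]
    symm
    refine Finset.sum_eq_zero fun j _ => ?_
    have h2 : lift K (T x (Pi.single j 1) y) (algebraMap K _ c) 0 1 = 0 := by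
      rw [AlgHom.commutes, alg]
      simp
    rw [h2, map_zero, LinearMap.zero_apply]
  | grade1 i =>
    have h1 : cl F k ⟨lift K (T X (fun i => (H i : E)) Y) (ι K i) 0 1,
        mem_Q hF k X Y H _⟩ = cl F k (H i) := by
      congr 1
      apply Subtype.ext
      show lift K (T X (fun i => (H i : E)) Y) (ι K i) 0 1 = _
      rw [lift_ι_apply]
      rfl
    rw [h1, Finset.sum_eq_single i]
    · have h2 : lift K (T x (Pi.single i 1) y) (ι K i) 0 1 = 1 := by
        rw [lift_ι_apply]
        simp [T]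
      rw [h2, map_one]
      rfl
    · intro j _ hj
      have h2 : lift K (T x (Pi.single j 1) y) (ι K i) 0 1 = 0 := by
        rw [lift_ι_apply]
        simp [T, Pi.single_eq_of_ne hj.symm]
      rw [h2, map_zero, LinearMap.zero_apply]
    · intro h
      exact absurd (Finset.mem_univ _) h
  | mul u v hu hv =>
    have h1 : cl F k ⟨lift K (T X (fun i => (H i : E)) Y) (u * v) 0 1, mem_Q hF k X Y H _⟩ =
        opL hF k (lift K X u)
          (cl F k ⟨lift K (T X (fun i => (H i : E)) Y) v 0 1, mem_Q hF k X Y H v⟩) +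
        opR hF k (lift K Y v)
          (cl F k ⟨lift K (T X (fun i => (H i : E)) Y) u 0 1, mem_Q hF k X Y H u⟩) := by
      rw [opL_cl, opR_cl, ← map_add]
      congr 1
      apply Subtype.ext
      exact prod01 (B := ℤ) X _ Y u v
    rw [h1, hu, hv, ← act_L hF k act x X hx u, ← act_R hF k act y Y hy v, map_sum, map_sum,
      ← Finset.sum_add_distrib]
    refine Finset.sum_congr rfl fun j _ => ?_
    rw [prod01 (B := ℤ), map_add, map_mul, mul_comm (lift K (T x (Pi.single j 1) y) u 0 1), map_mul]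
    rfl
  | add u v hu hv =>
    have h1 : cl F k ⟨lift K (T X (fun i => (H i : E)) Y) (u + v) 0 1, mem_Q hF k X Y H _⟩ =
        cl F k ⟨lift K (T X (fun i => (H i : E)) Y) u 0 1, mem_Q hF k X Y H u⟩ +
        cl F k ⟨lift K (T X (fun i => (H i : E)) Y) v 0 1, mem_Q hF k X Y H v⟩ := by
      rw [← map_add]
      congr 1
      apply Subtype.ext
      show lift K (T X (fun i => (H i : E)) Y) (u + v) 0 1 = _
      rw [map_add]
      rfl
    rw [h1, hu, hv, ← Finset.sum_add_distrib]
    refine Finset.sum_congr rfl fun j _ => ?_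
    rw [map_add, Matrix.add_apply, map_add]
    rfl

end Act

section Layer

variable (d : ℕ) (φ : FreeAlgebra K (Fin n) →ₐ[K] FreeAlgebra K (Fin n))
    (hd : ∀ i, φ (ι K i) ∈ degLE K n d) (hg : GoodAt (n * (d - 1) + 2) φ) (X Y : Fin n → E)

include hd hg in
lemma layer : ∃ (A B : Fin n → Fin n → Module.End K (Gr F k)),
    (∀ l j, ∑ i, B l i * A i j = if l = j then 1 else 0) ∧
    (∀ l j, ∑ i, A l i * B i j = if l = j then 1 else 0) ∧
    ∀ (H : Fin n → F k) i,
      cl F k ⟨lift K (T X (fun i => (H i : E)) Y) (φ (ι K i)) 0 1, mem_Q hF k X Y H _⟩ =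
        ∑ j, A i j (cl F k (H j)) := by
  classical
  obtain ⟨T', _, _, act, x, y, hx, hy⟩ := exists_T hF k X Y
  let e : (Fin n → T') ≃ₗ[T'] (Fin n → T') :=
    LinearEquiv.ofBijective (J T' φ x y) (J_bij d φ hd hg T' x y)
  let Am := LinearMap.toMatrix' (e : (Fin n → T') →ₗ[T'] (Fin n → T'))
  let Bm := LinearMap.toMatrix' (e.symm : (Fin n → T') →ₗ[T'] (Fin n → T'))
  have hBA : Bm * Am = 1 := by
    rw [← LinearMap.toMatrix'_comp]
    simp
  have hAB : Am * Bm = 1 := by
    rw [← LinearMap.toMatrix'_comp]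
    simp
  refine ⟨fun i j => act (Am i j), fun i j => act (Bm i j), ?_, ?_, ?_⟩
  · intro l j
    have := congrFun (congrFun hBA l) j
    rw [Matrix.mul_apply, Matrix.one_apply] at this
    simp only [← map_mul, ← map_sum]
    rw [this]
    split_ifs <;> simp
  · intro l j
    have := congrFun (congrFun hAB l) j
    rw [Matrix.mul_apply, Matrix.one_apply] at this
    simp only [← map_mul, ← map_sum]
    rw [this]
    split_ifs <;> simp
  · intro H i
    rw [cl_Q hF k act x y X Y hx hy]
    refine Finset.sum_congr rfl fun j _ => ?_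
    have h1 : Am i j = lift K (T x (Pi.single j 1) y) (φ (ι K i)) 0 1 := by
      rw [← J_apply T']
      exact LinearMap.toMatrix'_apply _ _ _
    show _ = act (Am i j) _
    rw [h1]

include hd hg hF in
lemma layer_inj (H : Fin n → F k)
    (h0 : ∀ i, lift K (T X (fun i => (H i : E)) Y) (φ (ι K i)) 0 1 ∈ F (k + 1)) (l : Fin n) :
    (H l : E) ∈ F (k + 1) := by
  classical
  obtain ⟨A, B, hBA, _, hA⟩ := layer hF k d φ hd hg X Y
  rw [← cl_eq_zero]
  have h1 : ∀ i, ∑ j, A i j (cl F k (H j)) = 0 := by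
    intro i
    rw [← hA, cl_eq_zero]
    exact h0 i
  have h2 : ∑ i, B l i (∑ j, A i j (cl F k (H j))) = cl F k (H l) := by
    simp only [map_sum]
    rw [Finset.sum_comm]
    have h3 : ∀ j, ∑ i, B l i (A i j (cl F k (H j))) =
        (if l = j then (1 : Module.End K (Gr F k)) else 0) (cl F k (H j)) := by
      intro j
      rw [← hBA l j, LinearMap.sum_apply]
      rfl
    simp only [h3]
    rw [Finset.sum_eq_single l]
    · simp
    · intro j _ hj
      rw [if_neg hj.symm]
      rfl
    · intro h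
      exact absurd (Finset.mem_univ _) h
  rw [← h2]
  simp [h1]

include hd hg hF in
lemma layer_surj (Z : Fin n → F k) : ∃ H : Fin n → F k, ∀ i,
    lift K (T X (fun i => (H i : E)) Y) (φ (ι K i)) 0 1 - Z i ∈ F (k + 1) := by
  classical
  obtain ⟨A, B, _, hAB, hA⟩ := layer hF k d φ hd hg X Y
  choose H hH using fun j => cl_surj k (∑ l, B j l (cl F k (Z l)))
  refine ⟨H, fun i => ?_⟩
  have h1 : cl F k ⟨lift K (T X (fun i => (H i : E)) Y) (φ (ι K i)) 0 1, mem_Q hF k X Y H _⟩ =
      cl F k (Z i) := by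
    rw [hA]
    simp only [hH, map_sum]
    rw [Finset.sum_comm]
    have h3 : ∀ l, ∑ j, A i j (B j l (cl F k (Z l))) =
        (if i = l then (1 : Module.End K (Gr F k)) else 0) (cl F k (Z l)) := by
      intro l
      rw [← hAB i l, LinearMap.sum_apply]
      rfl
    simp only [h3]
    rw [Finset.sum_eq_single i]
    · simp
    · intro j _ hj
      rw [if_neg hj.symm]
      rfl
    · intro h
      exact absurd (Finset.mem_univ _) h
  rw [← sub_eq_zero, ← map_sub, cl_eq_zero] at h1
  exact h1

end Layer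

end Pool.Agent.H316.LL
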