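import Pool.Agent.H316.LL.Lay2

set_option autoImplicit false
set_option linter.unusedSectionVars false

namespace Pool.Agent.H316.LL

open FreeAlgebra Pool.Agent.H2.FreeGood TensorProduct

variable {K : Type} [Field K] {n : ℕ} {E : Type} [Ring E] [Algebra K E] {F : ℕ → Submodule K E}
  (hF : Fil F) (d : ℕ) (φ : FreeAlgebra K (Fin n) →ₐ[K] FreeAlgebra K (Fin n))
  (hd : ∀ i, φ (ι K i) ∈ degLE K n d) (hg : GoodAt (n * (d - 1) + 2) φ)

include hF hd hg in
theorem fil_inj (r : ℕ) (hz : ∀ x ∈ F r, x = 0) (X Y : Fin n → E)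
    (h : ∀ i, lift K X (φ (ι K i)) = lift K Y (φ (ι K i))) : X = Y := by
  have key : ∀ k i, X i - Y i ∈ F k := by
    intro k
    induction k with
    | zero => intro i; exact hF.h0 _
    | succ k ih =>
      intro l
      refine layer_inj hF k d φ hd hg X Y (fun i => ⟨X i - Y i, ih i⟩) ?_ l
      intro i
      have h1 : (fun i => ((⟨X i - Y i, ih i⟩ : F k) : E)) = X - Y := rfl
      rw [h1, diff]
      have h2 : (!![lift K X (φ (ι K i)), lift K X (φ (ι K i)) - lift K Y (φ (ι K i)); 0,
        lift K Y (φ (ι K i))] : Matrix (Fin 2) (Fin 2) E) 0 1 = 0 := by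
        simp [h i]
      rw [h2]
      exact Submodule.zero_mem _
  funext i
  exact sub_eq_zero.mp (hz _ (key r i))

include hF in
lemma le_one (k : ℕ) (hk : 1 ≤ k) (x : E) (hx : x ∈ F k) : x ∈ F 1 := by
  induction k, hk using Nat.le_induction with
  | base => exact hx
  | succ k _ ih => exact ih (hF.hle k x hx)

include hF in
lemma lift_sub (X X' : Fin n → E) (h : ∀ i, X' i - X i ∈ F 1) (w : FreeAlgebra K (Fin n)) :
    lift K X' w - lift K X w ∈ F 1 := by
  induction w using FreeAlgebra.induction with
  | grade0 c => rw [AlgHom.commutes, AlgHom.commutes, sub_self]; exact Submodule.zero_mem _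
  | grade1 i => rw [lift_ι_apply, lift_ι_apply]; exact h i
  | mul u v hu hv =>
    have e : lift K X' (u * v) - lift K X (u * v) = (lift K X' u - lift K X u) * lift K X' v +
        lift K X u * (lift K X' v - lift K X v) := by
      rw [map_mul, map_mul, sub_mul, mul_sub]
      abel
    rw [e]
    exact Submodule.add_mem _ (hF.hr _ _ _ hu) (hF.hl _ _ _ hv)
  | add u v hu hv =>
    rw [map_add, map_add, add_sub_add_comm]
    exact Submodule.add_mem _ hu hv

include hF in
lemma Q_sub (k : ℕ) (X X' Y : Fin n → E) (h : ∀ i, X' i - X i ∈ F 1) (H : Fin n → F k)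
    (w : FreeAlgebra K (Fin n)) :
    lift K (T X' (fun i => (H i : E)) Y) w 0 1 - lift K (T X (fun i => (H i : E)) Y) w 0 1 ∈
      F (k + 1) := by
  induction w using FreeAlgebra.induction with
  | grade0 c =>
    rw [AlgHom.commutes, AlgHom.commutes, sub_self]
    exact Submodule.zero_mem _
  | grade1 i =>
    rw [lift_ι_apply, lift_ι_apply]
    have e : T X' (fun i => (H i : E)) Y i 0 1 - T X (fun i => (H i : E)) Y i 0 1 = 0 := by
      simp [T]
    rw [e]
    exact Submodule.zero_mem _
  | mul u v hu hv =>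
    rw [prod01 (B := ℤ), prod01 (B := ℤ)]
    have e : lift K X' u * lift K (T X' (fun i => (H i : E)) Y) v 0 1 +
        lift K (T X' (fun i => (H i : E)) Y) u 0 1 * lift K Y v -
        (lift K X u * lift K (T X (fun i => (H i : E)) Y) v 0 1 +
        lift K (T X (fun i => (H i : E)) Y) u 0 1 * lift K Y v) =
        (lift K X' u - lift K X u) * lift K (T X' (fun i => (H i : E)) Y) v 0 1 +
        lift K X u * (lift K (T X' (fun i => (H i : E)) Y) v 0 1 -
          lift K (T X (fun i => (H i : E)) Y) v 0 1) +
        (lift K (T X' (fun i => (H i : E)) Y) u 0 1 -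
          lift K (T X (fun i => (H i : E)) Y) u 0 1) * lift K Y v := by
      rw [sub_mul, mul_sub, sub_mul]
      abel
    rw [e]
    refine Submodule.add_mem _ (Submodule.add_mem _ ?_ (hF.hl _ _ _ hv)) (hF.hr _ _ _ hu)
    exact hF.hm k _ _ (lift_sub hF X X' h u) (mem_Q hF k X' Y H v)
  | add u v hu hv =>
    rw [map_add, map_add, Matrix.add_apply, Matrix.add_apply, add_sub_add_comm]
    exact Submodule.add_mem _ hu hv

/-- the ideal of the first layer -/
def I1 : Ideal E where
  carrier := F 1
  add_mem' := fun ha hb => Submodule.add_mem _ ha hb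
  zero_mem' := Submodule.zero_mem _
  smul_mem' := fun a x hx => hF.hl 1 a x hx

include hd hg hF in
lemma fil_base (Z : Fin n → E) : ∃ X : Fin n → E, ∀ i, lift K X (φ (ι K i)) - Z i ∈ F 1 := by
  haveI : (I1 hF).IsTwoSided := ⟨fun b ha => hF.hr 1 b _ ha⟩
  letI : CommRing (E ⧸ I1 hF) :=
    { Ideal.Quotient.ring (I1 hF) with
      mul_comm := by
        intro a b
        obtain ⟨a, rfl⟩ := Ideal.Quotient.mk_surjective a
        obtain ⟨b, rfl⟩ := Ideal.Quotient.mk_surjective b
        rw [← map_mul, ← map_mul, Ideal.Quotient.eq]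
        exact hF.hc a b }
  obtain ⟨x, hx⟩ := point_surj d φ hd hg (E ⧸ I1 hF) (fun i => Ideal.Quotient.mk (I1 hF) (Z i))
  choose X hX using fun i => Ideal.Quotient.mk_surjective (x i)
  refine ⟨X, fun i => ?_⟩
  have h6 : lift K x = (Ideal.Quotient.mkₐ K (I1 hF)).comp (lift K X) := by
    ext i : 2
    simp [hX]
  have h7 := hx i
  rw [h6] at h7
  have h8 : Ideal.Quotient.mk (I1 hF) (lift K X (φ (ι K i))) = Ideal.Quotient.mk (I1 hF) (Z i) := h7
  rw [Ideal.Quotient.eq] at h8
  exact h8

include hF hd hg in
theorem fil_surj (r : ℕ) (hz : ∀ x ∈ F r, x = 0) (Z : Fin n → E) :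
    ∃ X : Fin n → E, ∀ i, lift K X (φ (ι K i)) = Z i := by
  have key : ∀ k, 1 ≤ k → ∃ X : Fin n → E, ∀ i, lift K X (φ (ι K i)) - Z i ∈ F k := by
    intro k hk
    induction k, hk using Nat.le_induction with
    | base => exact fil_base hF d φ hd hg Z
    | succ k hk ih =>
      obtain ⟨X, hX⟩ := ih
      have hW : ∀ i, Z i - lift K X (φ (ι K i)) ∈ F k := fun i => by
        rw [← neg_sub]
        exact Submodule.neg_mem _ (hX i)
      obtain ⟨H, hH⟩ := layer_surj hF k d φ hd hg X X (fun i => ⟨_, hW i⟩)
      refine ⟨fun i => X i + H i, fun i => ?_⟩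
      have h1 : ∀ i, (X i + (H i : E)) - X i ∈ F 1 := fun i => by
        rw [add_sub_cancel_left]
        exact le_one hF k hk _ (H i).2
      have h2 := Q_sub hF k X (fun i => X i + H i) X h1 H (φ (ι K i))
      have h3 : lift K (T (fun i => X i + (H i : E)) (fun i => (H i : E)) X) (φ (ι K i)) 0 1 =
          lift K (fun i => X i + (H i : E)) (φ (ι K i)) - lift K X (φ (ι K i)) := by
        have h4 : (fun i => (H i : E)) = (fun i => X i + (H i : E)) - X := by
          funext i
          simp
        conv_lhs => rw [h4]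
        rw [diff]
        simp
      rw [h3] at h2
      have h5 := hH i
      have e : lift K (fun i => X i + (H i : E)) (φ (ι K i)) - Z i =
          (lift K (fun i => X i + (H i : E)) (φ (ι K i)) - lift K X (φ (ι K i)) -
            lift K (T X (fun i => (H i : E)) X) (φ (ι K i)) 0 1) +
          (lift K (T X (fun i => (H i : E)) X) (φ (ι K i)) 0 1 -
            (Z i - lift K X (φ (ι K i)))) := by
        abel
      rw [e]
      exact Submodule.add_mem _ h2 h5
  obtain ⟨X, hX⟩ := key (r + 1) (by omega)
  refine ⟨X, fun i => sub_eq_zero.mp (hz _ (hF.hle r _ (hX i)))⟩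

section Nil

variable (K E)

/-- the generators of the commutator ideal, as an additive group -/
def CG (c : E) : Prop := ∃ u v w z : E, c = u * (v * w - w * v) * z

/-- the powers of the commutator ideal -/
def CF (k : ℕ) : Submodule K E :=
  Submodule.span K {x | ∃ (a b : E) (l : List E), l.length = k ∧ (∀ c ∈ l, CG E c) ∧
    x = a * l.prod * b}

variable {K E}

lemma CF_hl (k : ℕ) (a x : E) (hx : x ∈ CF K E k) : a * x ∈ CF K E k := by
  unfold CF at hx
  induction hx using Submodule.span_induction with
  | mem x h =>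
    obtain ⟨u, v, l, h1, h2, rfl⟩ := h
    exact Submodule.subset_span ⟨a * u, v, l, h1, h2, by simp only [mul_assoc]⟩
  | zero => rw [mul_zero]; exact Submodule.zero_mem _
  | add x y _ _ hx hy => rw [mul_add]; exact Submodule.add_mem _ hx hy
  | smul c x _ hx => rw [mul_smul_comm]; exact Submodule.smul_mem _ _ hx

lemma CF_hr (k : ℕ) (a x : E) (hx : x ∈ CF K E k) : x * a ∈ CF K E k := by
  unfold CF at hx
  induction hx using Submodule.span_induction with
  | mem x h =>
    obtain ⟨u, v, l, h1, h2, rfl⟩ := h
    exact Submodule.subset_span ⟨u, v * a, l, h1, h2, by simp only [mul_assoc]⟩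
  | zero => rw [zero_mul]; exact Submodule.zero_mem _
  | add x y _ _ hx hy => rw [add_mul]; exact Submodule.add_mem _ hx hy
  | smul c x _ hx => rw [smul_mul_assoc]; exact Submodule.smul_mem _ _ hx

lemma CF_hm (k : ℕ) (x y : E) (hx : x ∈ CF K E 1) (hy : y ∈ CF K E k) :
    x * y ∈ CF K E (k + 1) := by
  unfold CF at hx hy
  induction hx using Submodule.span_induction with
  | mem x h =>
    obtain ⟨a, b, l, h1, h2, rfl⟩ := h
    obtain ⟨c, rfl⟩ := List.length_eq_one_iff.1 h1
    induction hy using Submodule.span_induction with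
    | mem y h' =>
      obtain ⟨a', b', l', h1', h2', rfl⟩ := h'
      refine Submodule.subset_span ⟨a, b', (c * (b * a')) :: l', by simp [h1'], ?_, ?_⟩
      · intro c' hc'
        rcases List.mem_cons.1 hc' with rfl | hc'
        · obtain ⟨u, v, w, z, rfl⟩ := h2 c (by simp)
          exact ⟨u, v, w, z * (b * a'), by simp only [mul_assoc]⟩
        · exact h2' c' hc'
      · simp only [List.prod_cons, List.prod_nil, mul_one, mul_assoc]
    | zero => rw [mul_zero]; exact Submodule.zero_mem _
    | add x y _ _ hx hy => rw [mul_add]; exact Submodule.add_mem _ hx hy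
    | smul c x _ hx => rw [mul_smul_comm]; exact Submodule.smul_mem _ _ hx
  | zero => rw [zero_mul]; exact Submodule.zero_mem _
  | add x y _ _ hx hy => rw [add_mul]; exact Submodule.add_mem _ hx hy
  | smul c x _ hx => rw [smul_mul_assoc]; exact Submodule.smul_mem _ _ hx

lemma CF_hm' (k : ℕ) (x y : E) (hx : x ∈ CF K E k) (hy : y ∈ CF K E 1) :
    x * y ∈ CF K E (k + 1) := by
  unfold CF at hx hy
  induction hx using Submodule.span_induction with
  | mem x h =>
    obtain ⟨a, b, l, h1, h2, rfl⟩ := h
    induction hy using Submodule.span_induction with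
    | mem y h' =>
      obtain ⟨a', b', l', h1', h2', rfl⟩ := h'
      obtain ⟨c, rfl⟩ := List.length_eq_one_iff.1 h1'
      refine Submodule.subset_span ⟨a, b', l ++ [b * a' * c], by simp [h1], ?_, ?_⟩
      · intro c' hc'
        rcases List.mem_append.1 hc' with hc' | hc'
        · exact h2 c' hc'
        · rw [List.mem_singleton] at hc'
          obtain ⟨u, v, w, z, rfl⟩ := h2' c (by simp)
          exact ⟨b * a' * u, v, w, z, by rw [hc']; simp only [mul_assoc]⟩
      · simp only [List.prod_append, List.prod_cons, List.prod_nil, mul_one, mul_assoc]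
    | zero => rw [mul_zero]; exact Submodule.zero_mem _
    | add x y _ _ hx hy => rw [mul_add]; exact Submodule.add_mem _ hx hy
    | smul c x _ hx => rw [mul_smul_comm]; exact Submodule.smul_mem _ _ hx
  | zero => rw [zero_mul]; exact Submodule.zero_mem _
  | add x y _ _ hx hy => rw [add_mul]; exact Submodule.add_mem _ hx hy
  | smul c x _ hx => rw [smul_mul_assoc]; exact Submodule.smul_mem _ _ hx

lemma CF_fil : Fil (CF K E) where
  h0 := fun a => Submodule.subset_span ⟨a, 1, [], rfl, by simp, by simp⟩
  hl := CF_hl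
  hr := CF_hr
  hc := fun a b => Submodule.subset_span ⟨1, 1, [a * b - b * a], rfl, by
    intro c hc
    rw [List.mem_singleton] at hc
    exact ⟨1, a, b, 1, by rw [hc]; simp⟩, by simp⟩
  hm := CF_hm
  hm' := CF_hm'
  hle := by
    intro k x hx
    unfold CF at hx
    induction hx using Submodule.span_induction with
    | mem x h =>
      obtain ⟨a, b, l, h1, h2, rfl⟩ := h
      cases l with
      | nil => simp at h1
      | cons c l =>
        exact Submodule.subset_span ⟨a * c, b, l, by simpa using h1,
          fun c' hc' => h2 c' (List.mem_cons_of_mem _ hc'), by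
            simp only [List.prod_cons, mul_assoc]⟩
    | zero => exact Submodule.zero_mem _
    | add x y _ _ hx hy => exact Submodule.add_mem _ hx hy
    | smul c x _ hx => exact Submodule.smul_mem _ _ hx

lemma CF_zero (r : ℕ) (h : ∀ l : List E, l.length = r → (∀ c ∈ l, CG E c) → l.prod = 0) :
    ∀ x ∈ CF K E r, x = 0 := by
  intro x hx
  unfold CF at hx
  induction hx using Submodule.span_induction with
  | mem x h' =>
    obtain ⟨a, b, l, h1, h2, rfl⟩ := h'
    rw [h l h1 h2, mul_zero, zero_mul]
  | zero => rfl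
  | add x y _ _ hx hy => rw [hx, hy, add_zero]
  | smul c x _ hx => rw [hx, smul_zero]

end Nil

include hd hg in
theorem bij_nil (r : ℕ) (h : ∀ l : List E, l.length = r → (∀ c ∈ l, CG E c) → l.prod = 0) :
    Function.Bijective fun (X : Fin n → E) (i : Fin n) => lift K X (φ (ι K i)) := by
  constructor
  · intro X Y hXY
    exact fil_inj (K := K) CF_fil d φ hd hg r (CF_zero r h) X Y fun i => congrFun hXY i
  · intro Z
    obtain ⟨X, hX⟩ := fil_surj (K := K) CF_fil d φ hd hg r (CF_zero r h) Z
    exact ⟨X, funext hX⟩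

end Pool.Agent.H316.LL
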