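import Pool.Agent.H316.LL.Lay3

set_option autoImplicit false
set_option linter.unusedSectionVars false

namespace Pool.Agent.H316.LL

open FreeAlgebra Pool.Agent.H2.FreeGood TensorProduct

variable {K : Type} [Field K] {n : ℕ}

lemma CF_map {E E' : Type} [Ring E] [Algebra K E] [Ring E'] [Algebra K E'] (f : E →ₐ[K] E')
    (k : ℕ) (x : E) (hx : x ∈ CF K E k) : f x ∈ CF K E' k := by
  unfold CF at hx
  induction hx using Submodule.span_induction with
  | mem x h =>
    obtain ⟨a, b, l, h1, h2, rfl⟩ := h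
    refine Submodule.subset_span ⟨f a, f b, l.map f, by simpa using h1, ?_, ?_⟩
    · intro c hc
      obtain ⟨c', hc', rfl⟩ := List.mem_map.1 hc
      obtain ⟨u, v, w, z, rfl⟩ := h2 c' hc'
      exact ⟨f u, f v, f w, f z, by simp only [map_mul, map_sub]⟩
    · rw [map_mul, map_mul, map_list_prod]
  | zero => rw [map_zero]; exact Submodule.zero_mem _
  | add x y _ _ hx hy => rw [map_add]; exact Submodule.add_mem _ hx hy
  | smul c x _ hx => rw [map_smul]; exact Submodule.smul_mem _ _ hx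

/-- the power of the commutator ideal -/
def Ik (K E : Type) [Field K] [Ring E] [Algebra K E] (k : ℕ) : Ideal E where
  carrier := CF K E k
  add_mem' := fun ha hb => Submodule.add_mem _ ha hb
  zero_mem' := Submodule.zero_mem _
  smul_mem' := fun a x hx => CF_hl k a x hx

instance (K E : Type) [Field K] [Ring E] [Algebra K E] (k : ℕ) : (Ik K E k).IsTwoSided :=
  ⟨fun b ha => CF_hr k b _ ha⟩

lemma mem_Ik (K E : Type) [Field K] [Ring E] [Algebra K E] (k : ℕ) (a : E) :
    a ∈ Ik K E k ↔ a ∈ CF K E k := Iff.rfl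

lemma quot_nil (K E : Type) [Field K] [Ring E] [Algebra K E] (k : ℕ) (l : List (E ⧸ Ik K E k))
    (hl : l.length = k) (hc : ∀ c ∈ l, CG (E ⧸ Ik K E k) c) : l.prod = 0 := by
  have h : ∀ l : List (E ⧸ Ik K E k), (∀ c ∈ l, CG (E ⧸ Ik K E k) c) →
      ∃ l' : List E, l'.length = l.length ∧ (∀ c ∈ l', CG E c) ∧
        Ideal.Quotient.mk (Ik K E k) l'.prod = l.prod := by
    intro l
    induction l with
    | nil => intro _; exact ⟨[], rfl, by simp, by simp⟩
    | cons c l ih =>
      intro hc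
      obtain ⟨l', h1, h2, h3⟩ := ih fun c' hc' => hc c' (List.mem_cons_of_mem _ hc')
      obtain ⟨u, v, w, z, hcz⟩ := hc c (by simp)
      obtain ⟨u, rfl⟩ := Ideal.Quotient.mk_surjective u
      obtain ⟨v, rfl⟩ := Ideal.Quotient.mk_surjective v
      obtain ⟨w, rfl⟩ := Ideal.Quotient.mk_surjective w
      obtain ⟨z, rfl⟩ := Ideal.Quotient.mk_surjective z
      refine ⟨(u * (v * w - w * v) * z) :: l', by simp [h1], ?_, ?_⟩
      · intro c' hc'
        rcases List.mem_cons.1 hc' with rfl | hc'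
        · exact ⟨u, v, w, z, rfl⟩
        · exact h2 c' hc'
      · rw [List.prod_cons, List.prod_cons, map_mul, h3, hcz]
        simp only [map_mul, map_sub]
  obtain ⟨l', h1, h2, h3⟩ := h l hc
  rw [← h3, Ideal.Quotient.eq_zero_iff_mem]
  exact Submodule.subset_span ⟨1, 1, l', h1.trans hl, h2, by simp⟩

theorem inv_mod (d : ℕ) (φ : FreeAlgebra K (Fin n) →ₐ[K] FreeAlgebra K (Fin n))
    (hd : ∀ i, φ (ι K i) ∈ degLE K n d) (hg : GoodAt (n * (d - 1) + 2) φ) (r : ℕ) :
    ∃ β : FreeAlgebra K (Fin n) →ₐ[K] FreeAlgebra K (Fin n),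
      (∀ a, β (φ a) - a ∈ CF K (FreeAlgebra K (Fin n)) r) ∧
      ∀ a, φ (β a) - a ∈ CF K (FreeAlgebra K (Fin n)) r := by
  set A := FreeAlgebra K (Fin n) with hA
  have bij := bij_nil (E := A ⧸ Ik K A r) d φ hd hg r (quot_nil K A r)
  let mk : A →ₐ[K] A ⧸ Ik K A r := Ideal.Quotient.mkₐ K (Ik K A r)
  have hmk0 : ∀ a, mk a = 0 ↔ a ∈ CF K A r := fun a => Ideal.Quotient.eq_zero_iff_mem
  have hmks : ∀ y, ∃ a, mk a = y := Ideal.Quotient.mk_surjective
  obtain ⟨X, hX⟩ := bij.2 (fun i => mk (ι K i))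
  choose g hgX using fun i => hmks (X i)
  let β : A →ₐ[K] A := lift K g
  have h1 : ∀ w, mk (β w) = lift K X w := by
    intro w
    have : mk.comp β = lift K X := by
      ext i : 2
      simp [β, hgX]
    rw [← this]
    rfl
  have h2 : (mk.comp β).comp φ = mk := by
    ext i : 2
    show mk (β (φ (ι K i))) = mk (ι K i)
    rw [h1]
    exact congrFun hX i
  have h3 : ∀ a, β (φ a) - a ∈ CF K A r := by
    intro a
    rw [← hmk0, map_sub, sub_eq_zero]
    exact DFunLike.congr_fun h2 a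
  refine ⟨β, h3, ?_⟩
  have h4 : (fun i => mk (φ (g i))) = fun i => mk (ι K i) := by
    apply bij.1
    funext i
    show lift K (fun i => mk (φ (g i))) (φ (ι K i)) = lift K (fun i => mk (ι K i)) (φ (ι K i))
    have h5 : lift K (fun i => mk (φ (g i))) = (mk.comp φ).comp β := by
      ext i : 2
      simp [β]
    have h6 : lift K (fun i => mk (ι K i)) = mk := by
      ext i : 2
      simp
    rw [h5, h6]
    show mk (φ (β (φ (ι K i)))) = mk (φ (ι K i))
    rw [← sub_eq_zero, ← map_sub, ← map_sub, hmk0]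
    exact CF_map φ r _ (h3 _)
  have h7 : (mk.comp φ).comp β = mk := by
    ext i : 2
    show mk (φ (β (ι K i))) = mk (ι K i)
    have : β (ι K i) = g i := lift_ι_apply _ _
    rw [this]
    exact congrFun h4 i
  intro a
  rw [← hmk0, map_sub, sub_eq_zero]
  exact DFunLike.congr_fun h7 a

end Pool.Agent.H316.LL
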