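import Pool.Agent.H316.LL.TriM
import Pool.Agent.H316.LL.Ex

set_option autoImplicit false
set_option linter.unusedSectionVars false

/-!
Bijectivity on the points in algebras which are embedded in an algebra of upper triangular matrices.
-/

namespace Pool.Agent.H316.LL

open FreeAlgebra Pool.Agent.H2.FreeGood TensorProduct

variable {K : Type} [Field K] {n : ℕ} {S : Type} [Ring S] [Algebra K S]

theorem bij_of_inj {κ : Type} [Fintype κ] (b : Module.Basis κ K S) [DecidableEq κ]
    (φ : FreeAlgebra K (Fin n) →ₐ[K] FreeAlgebra K (Fin n))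
    (hinj : ∀ (R : Type) [CommRing R] [Algebra K R], Function.Injective
      fun (X : Fin n → R ⊗[K] S) (i : Fin n) => lift K X (φ (ι K i)))
    (R : Type) [CommRing R] [Algebra K R] :
    Function.Bijective fun (X : Fin n → R ⊗[K] S) (i : Fin n) => lift K X (φ (ι K i)) := by
  have hU : UInj (cf b φ) := by
    intro R' _ _ x y hxy
    have h1 : pt b R' x = pt b R' y := by
      apply hinj R'
      funext i
      show lift K (pt b R' x) (φ (ι K i)) = lift K (pt b R' y) (φ (ι K i))
      rw [← sum_co b (lift K (pt b R' x) (φ (ι K i))), ← sum_co b (lift K (pt b R' y) (φ (ι K i)))]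
      refine Finset.sum_congr rfl fun k _ => ?_
      have := hxy (i, k)
      rw [aeval_cf, aeval_cf] at this
      rw [this]
    funext j
    rw [← co_pt b R' x j.1 j.2, h1, co_pt]
  refine ⟨hinj R, ?_⟩
  intro Y
  obtain ⟨x, hx⟩ := surj_points hU R (fun j => co b R j.2 (Y j.1))
  refine ⟨pt b R x, ?_⟩
  funext i
  show lift K (pt b R x) (φ (ι K i)) = Y i
  rw [← sum_co b (lift K (pt b R x) (φ (ι K i))), ← sum_co b (Y i)]
  refine Finset.sum_congr rfl fun k _ => ?_
  have := hx (i, k)
  rw [aeval_cf] at this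
  rw [this]

section Emb

variable {M : Type} [Ring M] [Algebra K M] {N : ℕ} (ρ : S →ₐ[K] Matrix (Fin N) (Fin N) M)

/-- the embedding over `R` -/
noncomputable def emb (R : Type) [CommRing R] [Algebra K R] :
    R ⊗[K] S →ₐ[K] Matrix (Fin N) (Fin N) (R ⊗[K] M) :=
  (Algebra.TensorProduct.lift (Algebra.ofId R (Matrix (Fin N) (Fin N) (R ⊗[K] M)))
    ((Algebra.TensorProduct.includeRight : M →ₐ[K] R ⊗[K] M).mapMatrix.comp ρ)
    (fun x _ => Algebra.commutes x _)).restrictScalars K

lemma emb_tmul (R : Type) [CommRing R] [Algebra K R] (r : R) (s : S) (c e : Fin N) :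
    emb ρ R (r ⊗ₜ s) c e = r ⊗ₜ[K] (ρ s c e) := by
  have h : emb ρ R (r ⊗ₜ s) = algebraMap R (Matrix (Fin N) (Fin N) (R ⊗[K] M)) r *
      (Algebra.TensorProduct.includeRight : M →ₐ[K] R ⊗[K] M).mapMatrix (ρ s) := rfl
  rw [h, ← Algebra.smul_def, Matrix.smul_apply]
  show r • ((1 : R) ⊗ₜ[K] (ρ s c e)) = _
  rw [TensorProduct.smul_tmul', smul_eq_mul, mul_one]

lemma emb_inj (hρ : Function.Injective ρ) (R : Type) [CommRing R] [Algebra K R] :
    Function.Injective (emb ρ R) := by
  obtain ⟨lam, hlam⟩ := LinearMap.exists_leftInverse_of_injective ρ.toLinearMap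
    (LinearMap.ker_eq_bot.2 hρ)
  let g : Matrix (Fin N) (Fin N) (R ⊗[K] M) → R ⊗[K] S := fun A =>
    ∑ c, ∑ e, (lam ∘ₗ Matrix.singleLinearMap K c e).lTensor R (A c e)
  have hg : ∀ z, g (emb ρ R z) = z := by
    intro z
    induction z using TensorProduct.induction_on with
    | zero => simp [g]
    | tmul r s =>
      simp only [g, emb_tmul, LinearMap.lTensor_tmul, LinearMap.comp_apply,
        Matrix.singleLinearMap_apply]
      simp only [← TensorProduct.tmul_sum, ← map_sum]
      rw [← Matrix.matrix_eq_sum_single]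
      congr 1
      exact DFunLike.congr_fun hlam s
    | add z z' h h' =>
      conv_rhs => rw [← h, ← h']
      simp only [g, map_add, Matrix.add_apply, Finset.sum_add_distrib]
  intro z z' h
  rw [← hg z, ← hg z', h]

lemma emb_tri (ht : ∀ s c e, e < c → ρ s c e = 0) (R : Type) [CommRing R] [Algebra K R]
    (z : R ⊗[K] S) (c e : Fin N) (h : e < c) : emb ρ R z c e = 0 := by
  induction z using TensorProduct.induction_on with
  | zero => rw [map_zero]; rfl
  | tmul r s => rw [emb_tmul, ht s c e h, TensorProduct.tmul_zero]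
  | add z z' h1 h2 => rw [map_add, Matrix.add_apply, h1, h2, add_zero]

theorem bij_tri [Module.Finite K M] (hρ : Function.Injective ρ)
    (ht : ∀ s c e, e < c → ρ s c e = 0) (d : ℕ)
    (φ : FreeAlgebra K (Fin n) →ₐ[K] FreeAlgebra K (Fin n))
    (hd : ∀ i, φ (ι K i) ∈ degLE K n d)
    (hg : GoodAt (Module.finrank K M * n * (d - 1) + 2) φ)
    (R : Type) [CommRing R] [Algebra K R] :
    Function.Bijective fun (X : Fin n → R ⊗[K] S) (i : Fin n) => lift K X (φ (ι K i)) := by
  have hfin : Module.Finite K S := Module.Finite.of_injective ρ.toLinearMap hρ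
  refine bij_of_inj (Module.finBasis K S) φ ?_ R
  intro R' _ _ X Y hXY
  have h0 : ∀ i, lift K (T (emb ρ R' ∘ X) (emb ρ R' ∘ (X - Y)) (emb ρ R' ∘ Y)) (φ (ι K i)) 0 1 =
      0 := by
    intro i
    rw [← nat, diff]
    have := congrFun hXY i
    simp only at this
    simp [this]
  have h1 := tri_inj (Module.finBasis K M) d φ hd (by rwa [Fintype.card_fin]) R'
    (emb ρ R' ∘ X) (emb ρ R' ∘ (X - Y)) (emb ρ R' ∘ Y)
    (fun i c e h => emb_tri ρ ht R' _ c e h) (fun i c e h => emb_tri ρ ht R' _ c e h)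
    (fun i c e h => emb_tri ρ ht R' _ c e h) h0
  have h2 : X - Y = 0 := by
    funext i
    apply emb_inj ρ hρ R'
    rw [Pi.zero_apply, map_zero]
    exact congrFun h1 i
  exact sub_eq_zero.mp h2

end Emb

end Pool.Agent.H316.LL
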